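import Mathlib
import Pool.Agent.Lib.GHDRace.VC

/-!
# Boolean matrices on a cube and their restrictions
-/

open Finset

namespace GHDSharp

open GHDRace

variable {ι : Type} [Fintype ι] [DecidableEq ι]

/-- signs -/
def sg (b : Bool) : ℝ := if b then 1 else -1

/-- the mean over the cube -/
noncomputable def EE (f : (ι → Bool) → ℝ) : ℝ := (∑ x, f x) / 2 ^ Fintype.card ι

/-- the fraction of `false` entries in row `x` -/
noncomputable def g (B : (ι → Bool) → (ι → Bool) → Bool) (x : ι → Bool) : ℝ :=
  EE fun y => if B x y then 0 else 1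

/-- the functional -/
noncomputable def FF (m : ℕ) (B : (ι → Bool) → (ι → Bool) → Bool) : ℝ := EE fun x => g B x ^ m

/-- the first coefficients of a row -/
noncomputable def ac (B : (ι → Bool) → (ι → Bool) → Bool) (t : ι) (x : ι → Bool) : ℝ :=
  EE fun y => (if B x y then 0 else 1) * sg (y t)

/-- glue a point of the restricted cube -/
def glue (R : Finset ι) (u : ι → Bool) (x : {t // t ∉ R} → Bool) : ι → Bool :=
  fun t => if h : t ∈ R then u t else x ⟨t, h⟩

/-- the restriction of a matrix: the rows agree with `u` on `R`, the columns with `u'` -/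
def restr (B : (ι → Bool) → (ι → Bool) → Bool) (R : Finset ι) (u u' : ι → Bool) :
    ({t // t ∉ R} → Bool) → ({t // t ∉ R} → Bool) → Bool :=
  fun x y => B (glue R u x) (glue R u' y)

/-- indicator of agreement with `u` on `R`, normalised -/
noncomputable def ag (R : Finset ι) (u x : ι → Bool) : ℝ :=
  if ∀ t ∈ R, x t = u t then 2 ^ R.card else 0

/-- the fraction of `false` entries of row `x` in the columns that agree with `u'` on `R` -/
noncomputable def gR (B : (ι → Bool) → (ι → Bool) → Bool) (R : Finset ι) (u' x : ι → Bool) : ℝ :=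
  EE fun y => (if B x y then 0 else 1) * ag R u' y

/-- near pairs are `true` -/
def Near (k h : ℕ) (B : (ι → Bool) → (ι → Bool) → Bool) : Prop :=
  ∀ x y, hammingDist x y + h ≤ k → B x y = true

/-- VC dimension at most `d` -/
def VCle (d : ℕ) (B : (ι → Bool) → (ι → Bool) → Bool) : Prop :=
  ∀ S : Finset (ι → Bool), Shat B S → S.card ≤ d

end GHDSharp
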