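import Mathlib
import Pool.Agent.Lib.GHDSharp.Defs

/-!
# Means over cubes, restrictions and the level one inequality
-/

open Finset

namespace GHDSharp

open GHDRace

variable {ι : Type} [Fintype ι] [DecidableEq ι]

lemma EE_mono {f h : (ι → Bool) → ℝ} (H : ∀ x, f x ≤ h x) : EE f ≤ EE h := by
  unfold EE
  exact div_le_div_of_nonneg_right (Finset.sum_le_sum fun x _ => H x) (by positivity)

lemma EE_nonneg {f : (ι → Bool) → ℝ} (H : ∀ x, 0 ≤ f x) : 0 ≤ EE f := by
  unfold EE
  exact div_nonneg (Finset.sum_nonneg fun x _ => H x) (by positivity)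

lemma EE_const (c : ℝ) : EE (fun _ : ι → Bool => c) = c := by
  unfold EE
  rw [Finset.sum_const, Finset.card_univ, Fintype.card_fun, Fintype.card_bool, nsmul_eq_mul]
  push_cast
  field_simp

lemma EE_add (f h : (ι → Bool) → ℝ) : EE (fun x => f x + h x) = EE f + EE h := by
  unfold EE; rw [Finset.sum_add_distrib, add_div]

lemma EE_sub (f h : (ι → Bool) → ℝ) : EE (fun x => f x - h x) = EE f - EE h := by
  unfold EE; rw [Finset.sum_sub_distrib, sub_div]

lemma EE_mul_left (c : ℝ) (f : (ι → Bool) → ℝ) : EE (fun x => c * f x) = c * EE f := by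
  unfold EE; rw [← Finset.mul_sum, mul_div_assoc]

lemma EE_mul_right (c : ℝ) (f : (ι → Bool) → ℝ) : EE (fun x => f x * c) = EE f * c := by
  unfold EE; rw [← Finset.sum_mul]; ring

lemma EE_sum {α : Type*} (s : Finset α) (f : α → (ι → Bool) → ℝ) :
    EE (fun x => ∑ a ∈ s, f a x) = ∑ a ∈ s, EE (f a) := by
  unfold EE; rw [Finset.sum_comm, Finset.sum_div]

lemma EE_comm (f : (ι → Bool) → (ι → Bool) → ℝ) :
    EE (fun x => EE fun y => f x y) = EE fun y => EE fun x => f x y := by
  unfold EE
  rw [← Finset.sum_div, ← Finset.sum_div, Finset.sum_comm]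

lemma EE_prod (φ : ι → Bool → ℝ) :
    EE (fun x => ∏ t, φ t (x t)) = ∏ t, ((φ t true + φ t false) / 2) := by
  unfold EE
  have h1 : ∑ x : ι → Bool, ∏ t, φ t (x t) = ∏ t, ∑ b : Bool, φ t b := by
    rw [Finset.prod_univ_sum, Fintype.piFinset_univ]
  rw [h1, Finset.prod_div_distrib, Finset.prod_const, Finset.card_univ]
  simp

/-- if the mean is at most the value somewhere -/
lemma exists_le_EE (f : (ι → Bool) → ℝ) : ∃ x, EE f ≤ f x := by
  by_contra hcon
  push Not at hcon
  have h1 : ∑ x, f x < ∑ _x : ι → Bool, EE f :=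
    Finset.sum_lt_sum_of_nonempty univ_nonempty fun x _ => hcon x
  rw [Finset.sum_const, Finset.card_univ, Fintype.card_fun, Fintype.card_bool, nsmul_eq_mul] at h1
  unfold EE at h1
  push_cast at h1
  have h2 : (0 : ℝ) < 2 ^ Fintype.card ι := by positivity
  rw [mul_div_cancel₀ _ h2.ne'] at h1
  exact lt_irrefl _ h1

lemma ag_nonneg (R : Finset ι) (u x : ι → Bool) : 0 ≤ ag R u x := by
  unfold ag; split_ifs <;> positivity

lemma ag_comm (R : Finset ι) (u x : ι → Bool) : ag R u x = ag R x u := by
  unfold ag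
  congr 1
  exact propext ⟨fun h t ht => (h t ht).symm, fun h t ht => (h t ht).symm⟩

lemma ag_mul (R : Finset ι) (u x : ι → Bool) (h : (ι → Bool) → ℝ)
    (hR : ∀ x u : ι → Bool, (∀ t ∈ R, x t = u t) → h x = h u) :
    ag R u x * h x = ag R u x * h u := by
  unfold ag
  split_ifs with hc
  · rw [hR x u hc]
  · simp

lemma EE_ag (R : Finset ι) (x : ι → Bool) : EE (fun u => ag R u x) = 1 := by
  have h1 : (fun u => ag R u x) = fun u : ι → Bool =>
      ∏ t, (if t ∈ R then (if u t = x t then (2 : ℝ) else 0) else 1) := by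
    funext u
    unfold ag
    split_ifs with hc
    · rw [Finset.prod_ite, Finset.prod_const_one, mul_one]
      rw [Finset.prod_congr rfl (g := fun _ => (2 : ℝ))]
      · rw [Finset.prod_const]; congr 2; ext t; simp
      · intro t ht
        rw [if_pos (hc t (by simpa using ht)).symm]
    · push Not at hc
      obtain ⟨t, ht, hne⟩ := hc
      symm
      apply Finset.prod_eq_zero (mem_univ t)
      rw [if_pos ht, if_neg (Ne.symm hne)]
  rw [h1, EE_prod (fun t b => if t ∈ R then (if b = x t then (2 : ℝ) else 0) else 1)]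
  apply Finset.prod_eq_one
  intro t _
  by_cases ht : t ∈ R
  · cases hx : x t <;> simp [ht]
  · simp [ht]

lemma EE_ag' (R : Finset ι) (u : ι → Bool) : EE (fun x => ag R u x) = 1 := by
  rw [← EE_ag R u]
  congr 1
  funext x
  exact ag_comm R u x

lemma glue_mem (R : Finset ι) (u : ι → Bool) (x : {t // t ∉ R} → Bool) {t : ι} (ht : t ∈ R) :
    glue R u x t = u t := by unfold glue; rw [dif_pos ht]

lemma glue_notMem (R : Finset ι) (u : ι → Bool) (x : {t // t ∉ R} → Bool) {t : ι} (ht : t ∉ R) :
    glue R u x t = x ⟨t, ht⟩ := by unfold glue; rw [dif_neg ht]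

lemma card_compl (R : Finset ι) : Fintype.card {t // t ∉ R} = Fintype.card ι - R.card := by
  rw [Fintype.card_subtype_compl, Fintype.card_coe]

/-- the mean over the restricted cube -/
lemma EE_glue (R : Finset ι) (u : ι → Bool) (f : (ι → Bool) → ℝ) :
    EE (fun x : {t // t ∉ R} → Bool => f (glue R u x)) = EE fun x => ag R u x * f x := by
  unfold EE
  have hR : R.card ≤ Fintype.card ι := Finset.card_le_univ R
  have h1 : ∑ x : ι → Bool, ag R u x * f x =
      2 ^ R.card * ∑ x : {t // t ∉ R} → Bool, f (glue R u x) := by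
    have h2 : ∑ x : ι → Bool, ag R u x * f x =
        ∑ x ∈ univ.filter (fun x : ι → Bool => ∀ t ∈ R, x t = u t), 2 ^ R.card * f x := by
      rw [Finset.sum_filter]
      refine Finset.sum_congr rfl fun x _ => ?_
      unfold ag
      split_ifs <;> simp
    rw [h2, ← Finset.mul_sum]
    congr 1
    symm
    refine Finset.sum_nbij' (fun x => glue R u x) (fun x t => x t.1) ?_ ?_ ?_ ?_ ?_
    · intro x _
      simp only [Finset.mem_filter, mem_univ, true_and]
      intro t ht
      exact glue_mem R u x ht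
    · intro x _; simp
    · intro x _
      funext t
      exact glue_notMem R u x t.2
    · intro x hx
      simp only [Finset.mem_filter, mem_univ, true_and] at hx
      funext t
      by_cases ht : t ∈ R
      · rw [glue_mem _ _ _ ht, hx t ht]
      · rw [glue_notMem _ _ _ ht]
    · intro x _; rfl
  rw [h1, card_compl]
  have h3 : (2 : ℝ) ^ Fintype.card ι = 2 ^ R.card * 2 ^ (Fintype.card ι - R.card) := by
    rw [← pow_add]; congr 1; omega
  rw [h3]
  have h4 : (0 : ℝ) < 2 ^ R.card := by positivity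
  field_simp

lemma g_restr (B : (ι → Bool) → (ι → Bool) → Bool) (R : Finset ι) (u u' : ι → Bool)
    (x : {t // t ∉ R} → Bool) : g (restr B R u u') x = gR B R u' (glue R u x) := by
  unfold g gR restr
  rw [EE_glue R u' (fun y => if B (glue R u x) y then (0 : ℝ) else 1)]
  congr 1
  funext y
  ring

lemma FF_restr (m : ℕ) (B : (ι → Bool) → (ι → Bool) → Bool) (R : Finset ι) (u u' : ι → Bool) :
    FF m (restr B R u u') = EE fun x => ag R u x * gR B R u' x ^ m := by
  unfold FF
  rw [← EE_glue R u (fun x => gR B R u' x ^ m)]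
  congr 1
  funext x
  rw [g_restr]

lemma EE_gR (B : (ι → Bool) → (ι → Bool) → Bool) (R : Finset ι) (x : ι → Bool) :
    EE (fun u' => gR B R u' x) = g B x := by
  unfold gR g
  rw [EE_comm]
  congr 1
  funext y
  rw [EE_mul_left, EE_ag R y, mul_one]

lemma gR_nonneg (B : (ι → Bool) → (ι → Bool) → Bool) (R : Finset ι) (u' x : ι → Bool) :
    0 ≤ gR B R u' x :=
  EE_nonneg fun y => mul_nonneg (by split_ifs <;> norm_num) (ag_nonneg _ _ _)

lemma g_nonneg (B : (ι → Bool) → (ι → Bool) → Bool) (x : ι → Bool) : 0 ≤ g B x :=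
  EE_nonneg fun y => by split_ifs <;> norm_num

lemma g_le_one (B : (ι → Bool) → (ι → Bool) → Bool) (x : ι → Bool) : g B x ≤ 1 := by
  calc g B x ≤ EE (fun _ : ι → Bool => (1 : ℝ)) := EE_mono fun y => by split_ifs <;> norm_num
    _ = 1 := EE_const 1

lemma abs_sg (b : Bool) : |sg b| = 1 := by cases b <;> simp [sg]

lemma sg_sq (b : Bool) : sg b * sg b = 1 := by cases b <;> simp [sg]

lemma ac_le (B : (ι → Bool) → (ι → Bool) → Bool) (t : ι) (x : ι → Bool) :
    |ac B t x| ≤ g B x := by
  rw [abs_le]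
  constructor
  · unfold ac g
    have h1 : -EE (fun y => if B x y then (0 : ℝ) else 1) =
        EE fun y => (-1) * (if B x y then (0 : ℝ) else 1) := by rw [EE_mul_left]; ring
    rw [h1]
    refine EE_mono fun y => ?_
    cases h : y t <;> (split_ifs <;> simp [sg])
  · unfold ac g
    refine EE_mono fun y => ?_
    cases h : y t <;> (split_ifs <;> simp [sg])

lemma ag_single (t : ι) (u x : ι → Bool) : ag {t} u x = 1 + sg (u t) * sg (x t) := by
  unfold ag
  cases h1 : u t <;> cases h2 : x t <;> simp [h1, h2, sg] <;> norm_num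

lemma gR_single (B : (ι → Bool) → (ι → Bool) → Bool) (t : ι) (u' x : ι → Bool) :
    gR B {t} u' x = g B x + sg (u' t) * ac B t x := by
  unfold gR g ac
  rw [← EE_mul_left, ← EE_add]
  congr 1
  funext y
  rw [ag_single]
  ring

/-- the mean of `FF` over the two halves -/
lemma FF_half (m : ℕ) (B : (ι → Bool) → (ι → Bool) → Bool) (t : ι) :
    (FF m (restr B {t} (fun _ => true) (fun _ => true)) +
      FF m (restr B {t} (fun _ => false) (fun _ => false))) / 2 =
      EE fun x => (g B x + sg (x t) * ac B t x) ^ m := by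
  rw [FF_restr, FF_restr, ← EE_add]
  unfold EE
  rw [div_div, mul_comm, ← div_div]
  congr 1
  rw [Finset.sum_div]
  refine Finset.sum_congr rfl fun x _ => ?_
  rw [ag_single, ag_single, gR_single, gR_single]
  cases h : x t <;> (simp only [sg, h]; norm_num)

/-- **Level one inequality** on a set `R` of coordinates. -/
theorem chang (R : Finset ι) (p : (ι → Bool) → ℝ) (hp : ∀ x, 0 ≤ p x) (hp1 : ∑ x, p x = 1)
    (M : ℝ) (hM : ∀ u, ∑ x, p x * ag R u x ≤ M) :
    Real.exp ((∑ t ∈ R, (∑ x, p x * sg (x t)) ^ 2) / 2) ≤ M := by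
  set ξ : ι → ℝ := fun t => ∑ x, p x * sg (x t) with hξ
  set S := ∑ t ∈ R, ξ t ^ 2 with hS
  set w : (ι → Bool) → ℝ := fun x => ∑ t ∈ R, ξ t * sg (x t) with hw
  have hpw : ∑ x, p x • w x = S := by
    simp only [hw, smul_eq_mul, Finset.mul_sum]
    rw [Finset.sum_comm, hS]
    refine Finset.sum_congr rfl fun t _ => ?_
    rw [sq]
    conv_rhs => rw [hξ]
    simp only
    rw [Finset.sum_mul]
    refine Finset.sum_congr rfl fun x _ => ?_
    ring
  have h1 : Real.exp S ≤ ∑ x, p x * Real.exp (w x) := by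
    have := convexOn_exp.map_sum_le (t := univ) (w := p) (p := w) (fun x _ => hp x) hp1
      (fun x _ => Set.mem_univ _)
    rw [hpw] at this
    exact this
  have hdep : ∀ x u : ι → Bool, (∀ t ∈ R, x t = u t) → Real.exp (w x) = Real.exp (w u) := by
    intro x u h
    congr 1
    exact Finset.sum_congr rfl fun t ht => by rw [h t ht]
  have h2 : ∑ x, p x * Real.exp (w x) = EE fun u => Real.exp (w u) * ∑ x, p x * ag R u x := by
    have h3 : ∀ x, p x * Real.exp (w x) = EE fun u => p x * (ag R u x * Real.exp (w u)) := by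
      intro x
      have h4 : (fun u => p x * (ag R u x * Real.exp (w u))) =
          fun u => (p x * Real.exp (w x)) * ag R u x := by
        funext u
        rw [← ag_mul R u x (fun x => Real.exp (w x)) hdep]
        ring
      rw [h4, EE_mul_left, EE_ag R x, mul_one]
    rw [Finset.sum_congr rfl fun x _ => h3 x, ← EE_sum]
    congr 1
    funext u
    rw [Finset.mul_sum]
    refine Finset.sum_congr rfl fun x _ => ?_
    ring
  have h3 : EE (fun u => Real.exp (w u) * ∑ x, p x * ag R u x) ≤ EE fun u => Real.exp (w u) * M :=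
    EE_mono fun u => mul_le_mul_of_nonneg_left (hM u) (Real.exp_pos _).le
  have h4 : EE (fun u => Real.exp (w u)) ≤ Real.exp (S / 2) := by
    have h5 : (fun u => Real.exp (w u)) = fun u : ι → Bool =>
        ∏ t, Real.exp (if t ∈ R then ξ t * sg (u t) else 0) := by
      funext u
      rw [← Real.exp_sum]
      congr 1
      rw [hw, Finset.sum_ite_mem, univ_inter]
    rw [h5, EE_prod (fun t b => Real.exp (if t ∈ R then ξ t * sg b else 0))]
    have h6 : Real.exp (S / 2) = ∏ t, Real.exp (if t ∈ R then ξ t ^ 2 / 2 else 0) := by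
      rw [← Real.exp_sum]
      congr 1
      rw [Finset.sum_ite_mem, univ_inter, hS, Finset.sum_div]
    rw [h6]
    refine Finset.prod_le_prod (fun t _ => by positivity) fun t _ => ?_
    by_cases ht : t ∈ R
    · simp only [ht, if_true, sg, Bool.false_eq_true, if_false, mul_one, mul_neg]
      have := Real.cosh_le_exp_half_sq (ξ t)
      rw [Real.cosh_eq] at this
      exact this
    · simp [ht]
  have h5 : Real.exp S ≤ Real.exp (S / 2) * M := by
    have h6 : EE (fun u => Real.exp (w u) * M) = EE (fun u => Real.exp (w u)) * M :=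
      EE_mul_right _ _
    have hM0 : 0 ≤ M := by
      have h7 := hM (fun _ => true)
      exact le_trans (Finset.sum_nonneg fun x _ => mul_nonneg (hp x) (ag_nonneg _ _ _)) h7
    calc Real.exp S ≤ _ := h1
      _ = _ := h2
      _ ≤ _ := h3
      _ = _ := h6
      _ ≤ _ := mul_le_mul_of_nonneg_right h4 hM0
  have h7 : Real.exp S = Real.exp (S / 2) * Real.exp (S / 2) := by
    rw [← Real.exp_add]; congr 1; ring
  rw [h7] at h5
  exact le_of_mul_le_mul_left h5 (Real.exp_pos _)

/-- Jensen -/
lemma EE_pow_le (f : (ι → Bool) → ℝ) (hf : ∀ x, 0 ≤ f x) (m : ℕ) :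
    EE f ^ m ≤ EE fun x => f x ^ m := by
  have hN : (0 : ℝ) < 2 ^ Fintype.card ι := by positivity
  have h1 := Real.pow_arith_mean_le_arith_mean_pow univ
    (fun _ : ι → Bool => 1 / (2 : ℝ) ^ Fintype.card ι) f (fun _ _ => by positivity) (by
      rw [Finset.sum_const, Finset.card_univ, Fintype.card_fun, Fintype.card_bool, nsmul_eq_mul]
      push_cast
      field_simp) (fun x _ => hf x) m
  rw [← Finset.mul_sum, ← Finset.mul_sum] at h1
  unfold EE
  rw [one_div, mul_comm, ← div_eq_mul_inv, mul_comm, ← div_eq_mul_inv] at h1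
  exact h1

lemma EE_le_FF_nonneg (m : ℕ) (B : (ι → Bool) → (ι → Bool) → Bool) : 0 ≤ FF m B :=
  EE_nonneg fun x => pow_nonneg (g_nonneg B x) m

end GHDSharp
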