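import Mathlib
import Pool.Agent.Lib.GHDSharp.Avg

/-!
# Restrictions keep the near pairs and the VC dimension
-/

open Finset

namespace GHDSharp

open GHDRace

variable {ι : Type} [Fintype ι] [DecidableEq ι]

lemma glue_inj (R : Finset ι) (u : ι → Bool) : Function.Injective (glue R u) := by
  intro x y h
  funext t
  have h1 := congrFun h t.1
  rwa [glue_notMem R u x t.2, glue_notMem R u y t.2] at h1

lemma VCle_restr {d : ℕ} {B : (ι → Bool) → (ι → Bool) → Bool} (h : VCle d B) (R : Finset ι)
    (u u' : ι → Bool) : VCle d (restr B R u u') := by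
  intro S hS
  rw [← Finset.card_image_of_injective S (glue_inj R u')]
  refine h _ fun T hT => ?_
  obtain ⟨x, hx⟩ := hS (S.filter fun y => glue R u' y ∈ T) (Finset.filter_subset _ _)
  refine ⟨glue R u x, fun y hy => ?_⟩
  obtain ⟨y', hy', rfl⟩ := Finset.mem_image.1 hy
  have h1 := hx y' hy'
  unfold restr at h1
  rw [h1]
  simp [hy']

lemma dist_glue (R : Finset ι) (u u' : ι → Bool) (x y : {t // t ∉ R} → Bool) :
    hammingDist (glue R u x) (glue R u' y) ≤
      hammingDist x y + (R.filter fun t => u t ≠ u' t).card := by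
  unfold hammingDist
  have h1 : (univ.filter fun t => glue R u x t ≠ glue R u' y t) ⊆
      ((univ.filter fun s : {t // t ∉ R} => x s ≠ y s).map (Function.Embedding.subtype _)) ∪
        R.filter fun t => u t ≠ u' t := by
    intro t ht
    have ht' := (Finset.mem_filter.1 ht).2
    by_cases hR : t ∈ R
    · rw [glue_mem _ _ _ hR, glue_mem _ _ _ hR] at ht'
      exact Finset.mem_union_right _ (Finset.mem_filter.2 ⟨hR, ht'⟩)
    · rw [glue_notMem _ _ _ hR, glue_notMem _ _ _ hR] at ht'
      refine Finset.mem_union_left _ (Finset.mem_map.2 ⟨⟨t, hR⟩, ?_, rfl⟩)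
      simp [ht']
  refine (Finset.card_le_card h1).trans ((Finset.card_union_le _ _).trans ?_)
  rw [Finset.card_map]

lemma near_restr {k h : ℕ} {B : (ι → Bool) → (ι → Bool) → Bool} (hB : Near k h B)
    (R : Finset ι) (u u' : ι → Bool) : Near k (h + R.card) (restr B R u u') := by
  intro x y hxy
  refine hB _ _ ?_
  have h1 := dist_glue R u u' x y
  have h2 := Finset.card_filter_le R fun t => u t ≠ u' t
  omega

lemma near_restr_same {k h : ℕ} {B : (ι → Bool) → (ι → Bool) → Bool} (hB : Near k h B)
    (R : Finset ι) (u : ι → Bool) : Near k h (restr B R u u) := by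
  intro x y hxy
  refine hB _ _ ?_
  have h1 := dist_glue R u u x y
  simp at h1
  omega

lemma FF_zero {k h m : ℕ} {B : (ι → Bool) → (ι → Bool) → Bool} (hB : Near k h B) (hm : 1 ≤ m)
    (hle : Fintype.card ι + h ≤ k) : FF m B = 0 := by
  have h1 : ∀ x, g B x = 0 := by
    intro x
    unfold g
    have h2 : (fun y => if B x y then (0 : ℝ) else 1) = fun _ => 0 := by
      funext y
      have h3 : hammingDist x y ≤ Fintype.card ι := hammingDist_le_card_fintype
      rw [if_pos (hB x y (by omega))]
    rw [h2, EE_const]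
  unfold FF
  have h2 : (fun x => g B x ^ m) = fun _ : ι → Bool => (0 : ℝ) := by
    funext x
    rw [h1, zero_pow (by omega)]
  rw [h2, EE_const]

lemma FF_le_one (m : ℕ) (B : (ι → Bool) → (ι → Bool) → Bool) : FF m B ≤ 1 := by
  calc FF m B ≤ EE (fun _ : ι → Bool => (1 : ℝ)) :=
        EE_mono fun x => pow_le_one₀ (g_nonneg B x) (g_le_one B x)
    _ = 1 := EE_const 1

end GHDSharp
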