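import Mathlib

/-!
# The two point inequality
-/

namespace GHDSharp

/-- a truncated power -/
noncomputable def phi (m : ℕ) (v : ℝ) : ℝ := (1 + min v (1 / m)) ^ m

lemma even_odd (m : ℕ) (v : ℝ) :
    1 + (m : ℝ) * (m - 1) / 2 * v ^ 2 ≤ ((1 + v) ^ m + (1 - v) ^ m) / 2 ∧
      (m : ℝ) * v ^ 2 ≤ v * (((1 + v) ^ m - (1 - v) ^ m) / 2) := by
  induction m with
  | zero => simp
  | succ m ih =>
    obtain ⟨h1, h2⟩ := ih
    have hE : ((1 + v) ^ (m + 1) + (1 - v) ^ (m + 1)) / 2 =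
        ((1 + v) ^ m + (1 - v) ^ m) / 2 + v * (((1 + v) ^ m - (1 - v) ^ m) / 2) := by ring
    have hO : v * (((1 + v) ^ (m + 1) - (1 - v) ^ (m + 1)) / 2) =
        v * (((1 + v) ^ m - (1 - v) ^ m) / 2) + v ^ 2 * (((1 + v) ^ m + (1 - v) ^ m) / 2) := by
      ring
    have hE1 : 1 ≤ ((1 + v) ^ m + (1 - v) ^ m) / 2 := by
      refine le_trans ?_ h1
      have h3 : 0 ≤ (m : ℝ) * (m - 1) / 2 * v ^ 2 := by
        rcases Nat.eq_zero_or_pos m with h | h
        · simp [h]
        · have : (1 : ℝ) ≤ m := by exact_mod_cast h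
          have : (0 : ℝ) ≤ m * (m - 1) := mul_nonneg (by linarith) (by linarith)
          positivity
      linarith
    rw [hE, hO]
    push_cast
    constructor
    · nlinarith
    · have := mul_le_mul_of_nonneg_left hE1 (sq_nonneg v)
      nlinarith

lemma two_term (E O xi xi0 kap e : ℝ) (he : e = E - 1) (he0 : 0 ≤ e) (h0 : 0 ≤ xi0)
    (h1 : xi0 ≤ 1 / 10) (hxi : |xi| ≤ xi0) (hOE : |O| ≤ E) (hk : 0 ≤ kap)
    (hO : e ≤ 2 * xi0 → O ^ 2 ≤ 2 * e * kap) : 1 - kap * xi ^ 2 / 2 ≤ E + xi * O := by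
  have h2 : -(|xi| * |O|) ≤ xi * O := by
    rw [← abs_mul]; exact neg_abs_le _
  have hE : 0 ≤ E := le_trans (abs_nonneg _) hOE
  rcases le_or_gt e (2 * xi0) with h | h
  · have h3 := hO h
    have h4 : |O| ≤ Real.sqrt (2 * e * kap) := Real.abs_le_sqrt h3
    have h5 : |xi| * |O| ≤ e + kap * xi ^ 2 / 2 := by
      have h6 : |xi| * |O| ≤ |xi| * Real.sqrt (2 * e * kap) :=
        mul_le_mul_of_nonneg_left h4 (abs_nonneg _)
      refine h6.trans ?_
      have h7 : (2 * e * kap) = (2 * e) * kap := by ring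
      rw [h7, Real.sqrt_mul (by linarith)]
      have h8 := sq_nonneg (Real.sqrt (2 * e) - |xi| * Real.sqrt kap)
      have h9 : Real.sqrt (2 * e) ^ 2 = 2 * e := Real.sq_sqrt (by linarith)
      have h10 : (|xi| * Real.sqrt kap) ^ 2 = xi ^ 2 * kap := by
        rw [mul_pow, sq_abs, Real.sq_sqrt hk]
      nlinarith
    linarith
  · have h3 : |xi| * |O| ≤ xi0 * E := mul_le_mul hxi hOE (abs_nonneg _) h0
    have h4 : 1 ≤ E - xi0 * E := by
      have : 1 + 2 * xi0 ≤ E := by linarith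
      nlinarith
    have h5 : 0 ≤ kap * xi ^ 2 / 2 := by positivity
    linarith

lemma phi_nonneg {m : ℕ} {v : ℝ} (hv : -1 ≤ v) : 0 ≤ phi m v := by
  unfold phi
  refine pow_nonneg ?_ _
  have h1 : (-1 : ℝ) ≤ 1 / m := le_trans (by norm_num) (by positivity : (0 : ℝ) ≤ 1 / m)
  have := le_min hv h1
  linarith

theorem phi_ineq (m : ℕ) (hm : 2 ≤ m) (xi0 xi v : ℝ) (h0 : 0 ≤ xi0) (h1 : xi0 ≤ 1 / 10)
    (hxi : |xi| ≤ xi0) (hv : |v| ≤ 1) :
    1 - (1 + 1 / ((m : ℝ) - 1) + xi0) * xi ^ 2 / 2 ≤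
      ((1 + xi) * phi m v + (1 - xi) * phi m (-v)) / 2 := by
  have hm' : (2 : ℝ) ≤ m := by exact_mod_cast hm
  have hm0 : (0 : ℝ) < m := by linarith
  have hm1 : (0 : ℝ) < (m : ℝ) - 1 := by linarith
  set kap := 1 + 1 / ((m : ℝ) - 1) + xi0 with hkap
  have hk : 0 ≤ kap := by positivity
  have hxi' := abs_le.1 hxi
  have hv' := abs_le.1 hv
  rcases lt_or_ge |v| (1 / m) with hc | hc
  · -- small tilt
    have hc' := abs_lt.1 hc
    have e1 : phi m v = (1 + v) ^ m := by unfold phi; rw [min_eq_left (by linarith)]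
    have e2 : phi m (-v) = (1 - v) ^ m := by
      unfold phi; rw [min_eq_left (by linarith)]; ring
    rw [e1, e2]
    set E := ((1 + v) ^ m + (1 - v) ^ m) / 2 with hE
    set O := ((1 + v) ^ m - (1 - v) ^ m) / 2 with hO
    have e3 : ((1 + xi) * (1 + v) ^ m + (1 - xi) * (1 - v) ^ m) / 2 = E + xi * O := by
      rw [hE, hO]; ring
    rw [e3]
    have hp1 : 0 ≤ (1 + v) ^ m := pow_nonneg (by linarith) _
    have hp2 : 0 ≤ (1 - v) ^ m := pow_nonneg (by linarith) _
    have h3 := (even_odd m v).1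
    have h4 : 0 ≤ (m : ℝ) * (m - 1) / 2 * v ^ 2 := by positivity
    refine two_term E O xi xi0 kap (E - 1) rfl (by linarith) h0 h1 hxi ?_ hk ?_
    · rw [abs_le]; constructor <;> (rw [hE, hO]; linarith)
    · intro he
      have h5 : E ^ 2 - O ^ 2 = (1 - v ^ 2) ^ m := by
        rw [hE, hO]
        have : (1 - v ^ 2) ^ m = (1 + v) ^ m * (1 - v) ^ m := by rw [← mul_pow]; ring
        rw [this]; ring
      have h6 : 1 - (m : ℝ) * v ^ 2 ≤ (1 - v ^ 2) ^ m := by
        have h7 := one_add_mul_le_pow (a := -v ^ 2) (by nlinarith) m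
        have h8 : 1 + -v ^ 2 = 1 - v ^ 2 := by ring
        rw [h8] at h7
        linarith
      have h9 : (m : ℝ) * v ^ 2 ≤ 2 * (E - 1) / (m - 1) := by
        rw [le_div_iff₀ hm1]
        linarith
      have h10 : O ^ 2 ≤ E ^ 2 - 1 + 2 * (E - 1) / (m - 1) := by linarith
      refine h10.trans ?_
      have h11 : 2 * (E - 1) * kap = 2 * (E - 1) + 2 * (E - 1) / (m - 1) + 2 * (E - 1) * xi0 := by
        rw [hkap]; field_simp
      rw [h11]
      nlinarith
  · -- large tilt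
    have hbig : (9 / 4 : ℝ) ≤ (1 + 1 / (m : ℝ)) ^ m := by
      have h2 := (even_odd m (1 / m)).1
      have h3 := (even_odd m (1 / m)).2
      have h4 : (1 + 1 / (m : ℝ)) ^ m = ((1 + 1 / (m : ℝ)) ^ m + (1 - 1 / (m : ℝ)) ^ m) / 2 +
        ((1 + 1 / (m : ℝ)) ^ m - (1 - 1 / (m : ℝ)) ^ m) / 2 := by ring
      have h5 : 1 + (m : ℝ) * (m - 1) / 2 * (1 / m) ^ 2 = 3 / 2 - 1 / (2 * m) := by
        field_simp; ring
      have h6 : 1 ≤ ((1 + 1 / (m : ℝ)) ^ m - (1 - 1 / (m : ℝ)) ^ m) / 2 := by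
        have h7 : (m : ℝ) * (1 / m) ^ 2 = 1 / m := by field_simp
        rw [h7] at h3
        have h8 : (0 : ℝ) < 1 / m := by positivity
        by_contra hcon
        push Not at hcon
        have := mul_lt_mul_of_pos_left hcon h8
        linarith
      rw [h5] at h2
      have h9 : 1 / (2 * (m : ℝ)) ≤ 1 / 4 := by
        rw [div_le_div_iff₀ (by positivity) (by norm_num)]; linarith
      rw [h4]; linarith
    have h5 : 0 ≤ kap * xi ^ 2 / 2 := by positivity
    rcases le_total 0 v with hs | hs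
    · rw [abs_of_nonneg hs] at hc
      have e1 : phi m v = (1 + 1 / (m : ℝ)) ^ m := by unfold phi; rw [min_eq_right hc]
      have e2 := phi_nonneg (m := m) (v := -v) (by linarith)
      rw [e1]
      have h6 : 0 ≤ (1 - xi) * phi m (-v) := mul_nonneg (by linarith) e2
      have h7 : (9 / 10 : ℝ) * (9 / 4) ≤ (1 + xi) * (1 + 1 / (m : ℝ)) ^ m :=
        mul_le_mul (by linarith) hbig (by norm_num) (by linarith)
      linarith
    · rw [abs_of_nonpos hs] at hc
      have e1 : phi m (-v) = (1 + 1 / (m : ℝ)) ^ m := by unfold phi; rw [min_eq_right hc]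
      have e2 := phi_nonneg (m := m) (v := v) (by linarith)
      rw [e1]
      have h6 : 0 ≤ (1 + xi) * phi m v := mul_nonneg (by linarith) e2
      have h7 : (9 / 10 : ℝ) * (9 / 4) ≤ (1 - xi) * (1 + 1 / (m : ℝ)) ^ m :=
        mul_le_mul (by linarith) hbig (by norm_num) (by linarith)
      linarith

/-- `phi` is a lower bound of the power -/
lemma phi_le_pow {m : ℕ} {v : ℝ} (hv : -1 ≤ v) : phi m v ≤ (1 + v) ^ m := by
  unfold phi
  have h1 : (-1 : ℝ) ≤ 1 / m := le_trans (by norm_num) (by positivity : (0 : ℝ) ≤ 1 / m)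
  have := le_min hv h1
  exact pow_le_pow_left₀ (by linarith) (by linarith [min_le_left v (1 / (m : ℝ))]) _

/-- `phi` is Lipschitz -/
lemma phi_lip {m : ℕ} (hm : 1 ≤ m) {v w : ℝ} (hv : -1 ≤ v) (hw : -1 ≤ w) :
    phi m w - 3 * m * |v - w| ≤ phi m v := by
  unfold phi
  have hm0 : (0 : ℝ) < m := by exact_mod_cast hm
  have h1 : (-1 : ℝ) ≤ 1 / m := le_trans (by norm_num) (by positivity : (0 : ℝ) ≤ 1 / m)
  set a := 1 + min v (1 / (m : ℝ)) with ha
  set b := 1 + min w (1 / (m : ℝ)) with hb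
  have ha0 : 0 ≤ a := by have := le_min hv h1; linarith
  have hb0 : 0 ≤ b := by have := le_min hw h1; linarith
  have hb1 : b ≤ 1 + 1 / m := by have := min_le_right w (1 / (m : ℝ)); linarith
  have hab : |b - a| ≤ |v - w| := by
    have h2 := abs_min_sub_min_le_max w (1 / (m : ℝ)) v (1 / (m : ℝ))
    rw [sub_self, abs_zero, max_eq_left (abs_nonneg _)] at h2
    rw [hb, ha, show 1 + min w (1 / (m : ℝ)) - (1 + min v (1 / (m : ℝ))) =
      min w (1 / (m : ℝ)) - min v (1 / (m : ℝ)) by ring, abs_sub_comm v w]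
    exact h2
  rcases le_total b a with hba | hba
  · have h2 : b ^ m ≤ a ^ m := pow_le_pow_left₀ hb0 hba m
    have h3 : 0 ≤ 3 * (m : ℝ) * |v - w| := by positivity
    linarith
  · -- b^m - a^m ≤ m b^(m-1) (b - a)
    have h2 : b ^ m - a ^ m ≤ m * b ^ (m - 1) * (b - a) := by
      rcases eq_or_lt_of_le hb0 with hb00 | hb00
      · have : a = 0 := by linarith
        rw [this, ← hb00]; simp
      have h3 := one_add_mul_le_pow (a := (a - b) / b) (by
        rw [le_div_iff₀ hb00]; linarith) m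
      have h4 : 1 + (a - b) / b = a / b := by field_simp; ring
      rw [h4, div_pow] at h3
      have h5 : 0 < b ^ m := by positivity
      rw [le_div_iff₀ h5] at h3
      have h6 : b ^ m = b ^ (m - 1) * b := by
        rw [← pow_succ]; congr 1; omega
      have h7 : (1 + (m : ℝ) * ((a - b) / b)) * b ^ m = b ^ m + m * b ^ (m - 1) * (a - b) := by
        rw [h6]; field_simp
      rw [h7] at h3
      linarith
    have h3 : b ^ (m - 1) ≤ 3 := by
      have h4 : b ^ (m - 1) ≤ (1 + 1 / (m : ℝ)) ^ (m - 1) := pow_le_pow_left₀ hb0 hb1 _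
      have h5 : (1 + 1 / (m : ℝ)) ^ (m - 1) ≤ (1 + 1 / (m : ℝ)) ^ m :=
        pow_le_pow_right₀ (by have : (0 : ℝ) ≤ 1 / m := by positivity
                              linarith) (by omega)
      have h6 : (1 + 1 / (m : ℝ)) ^ m ≤ Real.exp 1 := by
        have h7 : 1 + 1 / (m : ℝ) ≤ Real.exp (1 / m) := by
          have := Real.add_one_le_exp (1 / (m : ℝ)); linarith
        calc (1 + 1 / (m : ℝ)) ^ m ≤ Real.exp (1 / m) ^ m :=
              pow_le_pow_left₀ (by positivity) h7 m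
          _ = Real.exp 1 := by rw [← Real.exp_nat_mul]; congr 1; field_simp
      have h8 := Real.exp_one_lt_d9
      linarith
    have h4 : b - a ≤ |v - w| := le_trans (le_abs_self _) hab
    have h5 : (m : ℝ) * b ^ (m - 1) * (b - a) ≤ 3 * m * |v - w| := by
      have h6 : (m : ℝ) * b ^ (m - 1) ≤ 3 * m := by
        have := mul_le_mul_of_nonneg_left h3 hm0.le
        linarith
      exact mul_le_mul h6 h4 (by linarith) (by positivity)
    linarith

end GHDSharp
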