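import Mathlib
import Pool.Agent.Lib.GHDSharp.Avg
import Pool.Agent.Lib.GHDSharp.Ineq

/-!
# One cluster of rows
-/

open Finset

namespace GHDSharp

open GHDRace

variable {ι : Type} [Fintype ι] [DecidableEq ι]

/-- the bias of the coordinate `t` in the cluster -/
noncomputable def xi (S : Finset (ι → Bool)) (G : (ι → Bool) → ℝ) (t : ι) : ℝ :=
  (∑ x ∈ S, G x * sg (x t)) / ∑ x ∈ S, G x

lemma xi_eq (S : Finset (ι → Bool)) (G : (ι → Bool) → ℝ) (t : ι) :
    xi S G t = ∑ x, (if x ∈ S then G x / ∑ x ∈ S, G x else 0) * sg (x t) := by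
  unfold xi
  have h1 : ∀ x, (if x ∈ S then G x / ∑ x ∈ S, G x else 0) * sg (x t) =
      if x ∈ S then G x / (∑ x ∈ S, G x) * sg (x t) else 0 := by
    intro x; split_ifs <;> simp
  rw [Finset.sum_congr rfl fun x _ => h1 x, Finset.sum_ite_mem, univ_inter, Finset.sum_div]
  refine Finset.sum_congr rfl fun x _ => ?_
  ring

lemma xi_abs (S : Finset (ι → Bool)) (G : (ι → Bool) → ℝ) (hG0 : ∀ x, 0 ≤ G x)
    (hw : 0 < ∑ x ∈ S, G x) (t : ι) : |xi S G t| ≤ 1 := by
  unfold xi
  rw [abs_div, abs_of_pos hw, div_le_one hw]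
  refine (Finset.abs_sum_le_sum_abs _ _).trans (Finset.sum_le_sum fun x _ => ?_)
  rw [abs_mul, abs_sg, mul_one, abs_of_nonneg (hG0 x)]

lemma chang_cluster (S : Finset (ι → Bool)) (G : (ι → Bool) → ℝ) (hG0 : ∀ x, 0 ≤ G x)
    (hw : 0 < ∑ x ∈ S, G x) (R : Finset ι) (M : ℝ)
    (hM : ∀ u, ∑ x ∈ S, G x * ag R u x ≤ (∑ x ∈ S, G x) * M) :
    Real.exp ((∑ t ∈ R, xi S G t ^ 2) / 2) ≤ M := by
  set w := ∑ x ∈ S, G x with hwdef
  have h1 := chang R (fun x => if x ∈ S then G x / w else 0)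
    (fun x => by
      have := hG0 x
      split_ifs
      · positivity
      · exact le_rfl)
    (by
      rw [Finset.sum_ite_mem, univ_inter, ← Finset.sum_div, ← hwdef]
      exact div_self hw.ne') M (fun u => by
      have h2 : ∑ x, (if x ∈ S then G x / w else 0) * ag R u x =
          (∑ x ∈ S, G x * ag R u x) / w := by
        rw [Finset.sum_div]
        rw [← Finset.sum_subset (Finset.subset_univ S)]
        · refine Finset.sum_congr rfl fun x hx => ?_
          rw [if_pos hx]; ring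
        · intro x _ hx
          rw [if_neg hx, zero_mul]
      rw [h2, div_le_iff₀ hw, mul_comm]
      exact hM u)
  have h2 : ∑ t ∈ R, xi S G t ^ 2 =
      ∑ t ∈ R, (∑ x, (if x ∈ S then G x / w else 0) * sg (x t)) ^ 2 :=
    Finset.sum_congr rfl fun t _ => by rw [xi_eq]
  rw [h2]
  exact h1

lemma phi_sg (m : ℕ) (b : Bool) (v : ℝ) :
    phi m (sg b * v) = ((1 + sg b) * phi m v + (1 - sg b) * phi m (-v)) / 2 := by
  cases b
  · simp [sg]; ring
  · simp [sg]; ring

lemma cluster_loss (m : ℕ) (hm : 2 ≤ m) (S : Finset (ι → Bool)) (G : (ι → Bool) → ℝ)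
    (hG0 : ∀ x, 0 ≤ G x) (hG1 : ∀ x, G x ≤ 1) (hw : 0 < ∑ x ∈ S, G x) (v : ι → ℝ)
    (hv : ∀ t, |v t| ≤ 1) (xi0 : ℝ) (h0 : 0 ≤ xi0) (h1 : xi0 ≤ 1 / 10) (r : ℕ)
    (hr : (univ.filter fun t => xi0 < |xi S G t|).card ≤ r) (lam : ℝ)
    (hlam : 2 ^ Fintype.card ι ≤ (∑ x ∈ S, G x) * Real.exp lam) :
    ∑ t, ∑ x ∈ S, G x * (1 - phi m (sg (x t) * v t)) ≤
      (∑ x ∈ S, G x) * ((1 + 1 / ((m : ℝ) - 1) + xi0) * lam + r) := by
  set w := ∑ x ∈ S, G x with hwdef
  set kap := 1 + 1 / ((m : ℝ) - 1) + xi0 with hkap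
  have hm' : (2 : ℝ) ≤ m := by exact_mod_cast hm
  have hkap0 : 0 ≤ kap := by
    have : (0 : ℝ) < (m : ℝ) - 1 := by linarith
    positivity
  have hch : ∑ t, xi S G t ^ 2 ≤ 2 * lam := by
    have h2 := chang_cluster S G hG0 hw univ (Real.exp lam) (fun u => by
      have h3 : ∑ x ∈ S, G x * ag univ u x ≤ 2 ^ Fintype.card ι := by
        have h4 : ∀ x ∈ S, G x * ag univ u x ≤ if x = u then 2 ^ Fintype.card ι else 0 := by
          intro x _
          unfold ag
          by_cases hxu : x = u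
          · rw [if_pos hxu, if_pos (by intro t _; rw [hxu]), Finset.card_univ]
            have := hG1 x
            have h5 : (0 : ℝ) < 2 ^ Fintype.card ι := by positivity
            nlinarith
          · rw [if_neg hxu, if_neg (fun h => hxu (funext fun t => h t (mem_univ t))), mul_zero]
        refine (Finset.sum_le_sum h4).trans ?_
        rw [Finset.sum_ite_eq']
        split_ifs
        · exact le_rfl
        · positivity
      exact h3.trans hlam)
    have h3 := Real.exp_le_exp.1 h2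
    linarith
  have hper : ∀ t, ∑ x ∈ S, G x * (1 - phi m (sg (x t) * v t)) ≤
      w * (kap * xi S G t ^ 2 / 2 + if xi0 < |xi S G t| then 1 else 0) := by
    intro t
    have h2 : ∑ x ∈ S, G x * (1 - phi m (sg (x t) * v t)) =
        w * (1 - ((1 + xi S G t) * phi m (v t) + (1 - xi S G t) * phi m (-v t)) / 2) := by
      have h3 : w * xi S G t = ∑ x ∈ S, G x * sg (x t) := by
        unfold xi; rw [← hwdef]; field_simp
      have h4 : ∀ x ∈ S, G x * (1 - phi m (sg (x t) * v t)) =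
          G x * (1 - (phi m (v t) + phi m (-v t)) / 2) -
            G x * sg (x t) * ((phi m (v t) - phi m (-v t)) / 2) := by
        intro x _
        rw [phi_sg]; ring
      rw [Finset.sum_congr rfl h4, Finset.sum_sub_distrib, ← Finset.sum_mul, ← Finset.sum_mul,
        ← hwdef, ← h3]
      ring
    rw [h2]
    refine mul_le_mul_of_nonneg_left ?_ hw.le
    have hva := abs_le.1 (hv t)
    split_ifs with hc
    · have h3 := abs_le.1 (xi_abs S G hG0 hw t)
      have h4 := phi_nonneg (m := m) (v := v t) hva.1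
      have h5 := phi_nonneg (m := m) (v := -v t) (by linarith [hva.2])
      have h6 : 0 ≤ (1 + xi S G t) * phi m (v t) := mul_nonneg (by linarith) h4
      have h7 : 0 ≤ (1 - xi S G t) * phi m (-v t) := mul_nonneg (by linarith) h5
      have h8 : 0 ≤ kap * xi S G t ^ 2 / 2 := by positivity
      linarith
    · push Not at hc
      have := phi_ineq m hm xi0 (xi S G t) (v t) h0 h1 hc (hv t)
      rw [← hkap] at this
      linarith
  refine (Finset.sum_le_sum fun t _ => hper t).trans ?_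
  rw [← Finset.mul_sum]
  refine mul_le_mul_of_nonneg_left ?_ hw.le
  rw [Finset.sum_add_distrib, ← Finset.sum_div, ← Finset.mul_sum, ← Finset.sum_filter,
    Finset.sum_const, nsmul_eq_mul, mul_one]
  have h2 : ((univ.filter fun t => xi0 < |xi S G t|).card : ℝ) ≤ r := by exact_mod_cast hr
  have h3 : kap * ∑ t, xi S G t ^ 2 ≤ kap * (2 * lam) := mul_le_mul_of_nonneg_left hch hkap0
  linarith

lemma cluster_gain (S : Finset (ι → Bool)) (G : (ι → Bool) → ℝ)
    (hG0 : ∀ x, 0 ≤ G x) (hw : 0 < ∑ x ∈ S, G x) (xi0 : ℝ) (h0 : 0 ≤ xi0) (R : Finset ι)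
    (hR : ∀ t ∈ R, xi0 ≤ |xi S G t|) :
    ∃ u, (∑ x ∈ S, G x) * Real.exp (R.card * xi0 ^ 2 / 2) ≤ ∑ x ∈ S, G x * ag R u x := by
  obtain ⟨u, _, hu⟩ := Finset.exists_max_image (univ : Finset (ι → Bool))
    (fun u => ∑ x ∈ S, G x * ag R u x) univ_nonempty
  refine ⟨u, ?_⟩
  set w := ∑ x ∈ S, G x with hwdef
  have h1 := chang_cluster S G hG0 hw R ((∑ x ∈ S, G x * ag R u x) / w) (fun u' => by
    rw [← hwdef, mul_div_cancel₀ _ hw.ne']
    exact hu u' (mem_univ _))
  rw [le_div_iff₀ hw] at h1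
  refine le_trans ?_ h1
  rw [mul_comm]
  refine mul_le_mul_of_nonneg_right (Real.exp_le_exp.2 ?_) hw.le
  have h2 : (R.card : ℝ) * xi0 ^ 2 ≤ ∑ t ∈ R, xi S G t ^ 2 := by
    rw [← nsmul_eq_mul, ← Finset.sum_const]
    refine Finset.sum_le_sum fun t ht => ?_
    rw [← sq_abs (xi S G t)]
    exact pow_le_pow_left₀ h0 (hR t ht) 2
  linarith

end GHDSharp
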