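import Mathlib
import Pool.Agent.Lib.GHDSharp.Avg
import Pool.Agent.Lib.GHDXor.Pack

/-!
# A small net of rows
-/

open Finset

namespace GHDSharp

open GHDRace

variable {ι : Type} [Fintype ι] [DecidableEq ι]

/-- number of columns where two rows differ -/
def df (B : (ι → Bool) → (ι → Bool) → Bool) (x z : ι → Bool) : ℕ :=
  (univ.filter fun y => B x y ≠ B z y).card

theorem net (B : (ι → Bool) → (ι → Bool) → Bool) (d : ℕ) (hd : VCle d B) (eps : ℝ)
    (he : 0 < eps) (M : ℕ) (hi : 1 ≤ Fintype.card ι)
    (hM : 2 * (Fintype.card ι : ℝ) ≤ eps * M) :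
    ∃ Z : Finset (ι → Bool), Z.card ≤ (M + 1) ^ d ∧
      ∀ x, ∃ z ∈ Z, (df B x z : ℝ) ≤ eps * 2 ^ Fintype.card ι := by
  classical
  set N : ℝ := 2 ^ Fintype.card ι with hN
  let P : Finset (ι → Bool) → Prop := fun Z => ∀ a ∈ Z, ∀ b ∈ Z, a ≠ b → eps * N < df B a b
  have hPe : P ∅ := by intro a ha; simp at ha
  obtain ⟨Z, hZ, hmax⟩ := Finset.exists_max_image (univ.filter P) Finset.card
    ⟨∅, by simp [hPe]⟩
  have hZP : P Z := (Finset.mem_filter.1 hZ).2
  refine ⟨Z, ?_, ?_⟩
  · by_contra hcon
    push Not at hcon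
    have h1 := sum_choose_le M d
    have h2 : Finset.Iic d = Finset.range (d + 1) := by
      ext i; simp [Nat.lt_succ_iff]
    rw [h2] at h1
    have h3 : ∑ i ∈ Finset.range (d + 1), M.choose i < Fintype.card Z := by
      rw [Fintype.card_coe]; omega
    obtain ⟨a, a', hne, h4⟩ := GHDXor.pack (fun (a : Z) y => B a.1 y) M d (by
      intro S hS
      refine hd S fun T hT => ?_
      obtain ⟨x, hx⟩ := hS T hT
      exact ⟨x.1, hx⟩) h3
    have h5 := hZP a.1 a.2 a'.1 a'.2 (fun h => hne (Subtype.ext h))
    have hcard : (Fintype.card (ι → Bool) : ℝ) = N := by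
      rw [Fintype.card_fun, Fintype.card_bool]; push_cast; rfl
    rw [hcard] at h4
    have hN0 : 0 < N := by positivity
    have h6 : Real.log (Fintype.card Z) ≤ Fintype.card ι := by
      have hpos : (0 : ℝ) < Fintype.card Z := by
        have : 0 < Fintype.card Z := by omega
        exact_mod_cast this
      have h7 : (Fintype.card Z : ℝ) ≤ N := by
        rw [← hcard, Fintype.card_coe]
        exact_mod_cast Finset.card_le_univ Z
      have h8 : Real.log (Fintype.card Z) ≤ Real.log N := Real.log_le_log hpos h7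
      rw [hN, Real.log_pow] at h8
      have h9 : Real.log 2 ≤ 1 := by have := Real.log_two_lt_d9; linarith
      have h10 : (0 : ℝ) ≤ Fintype.card ι := by positivity
      nlinarith
    have h7 : ((univ.filter fun y => B a.1 y ≠ B a'.1 y).card : ℝ) = df B a.1 a'.1 := rfl
    rw [h7] at h4
    have hM0 : (0 : ℝ) < M := by
      have h8 : (1 : ℝ) ≤ Fintype.card ι := by exact_mod_cast hi
      by_contra hneg
      push Not at hneg
      nlinarith
    have h8 : eps * N * M < df B a.1 a'.1 * M := mul_lt_mul_of_pos_right h5 hM0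
    have h9 : 2 * Real.log (Fintype.card Z) * N ≤ 2 * Fintype.card ι * N :=
      mul_le_mul_of_nonneg_right (by linarith) hN0.le
    have h10 : 2 * (Fintype.card ι : ℝ) * N ≤ eps * M * N :=
      mul_le_mul_of_nonneg_right hM hN0.le
    nlinarith
  · intro x
    by_contra hcon
    push Not at hcon
    have hx : x ∉ Z := by
      intro hx
      have h1 := hcon x hx
      have h2 : df B x x = 0 := by unfold df; simp
      rw [h2] at h1
      have : 0 < eps * 2 ^ Fintype.card ι := by positivity
      push_cast at h1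
      linarith
    have hsym : ∀ a b, df B a b = df B b a := by
      intro a b; unfold df; congr 1; ext y; simp [ne_comm]
    have h1 : P (insert x Z) := by
      intro a ha b hb hab
      rcases Finset.mem_insert.1 ha with ha' | ha'
      · rcases Finset.mem_insert.1 hb with hb' | hb'
        · exact absurd (ha'.trans hb'.symm) hab
        · rw [ha']; exact hcon b hb'
      · rcases Finset.mem_insert.1 hb with hb' | hb'
        · rw [hsym, hb']; exact hcon a ha'
        · exact hZP a ha' b hb' hab
    have h2 := hmax (insert x Z) (by simp [h1])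
    rw [Finset.card_insert_of_notMem hx] at h2
    omega

lemma df_EE (B : (ι → Bool) → (ι → Bool) → Bool) (x z : ι → Bool) (w : (ι → Bool) → ℝ)
    (hw : ∀ y, |w y| ≤ 1) (eps : ℝ) (h : (df B x z : ℝ) ≤ eps * 2 ^ Fintype.card ι) :
    |EE (fun y => (if B x y then 0 else 1) * w y) - EE (fun y => (if B z y then 0 else 1) * w y)|
      ≤ eps := by
  rw [← EE_sub]
  unfold EE
  rw [abs_div, abs_of_pos (by positivity : (0 : ℝ) < 2 ^ Fintype.card ι),
    div_le_iff₀ (by positivity)]
  refine le_trans ?_ h
  refine (Finset.abs_sum_le_sum_abs _ _).trans ?_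
  unfold df
  rw [Finset.card_filter]
  push_cast
  refine Finset.sum_le_sum fun y _ => ?_
  have := hw y
  cases h1 : B x y <;> cases h2 : B z y <;> simp [this]

lemma g_near (B : (ι → Bool) → (ι → Bool) → Bool) (x z : ι → Bool) (eps : ℝ)
    (h : (df B x z : ℝ) ≤ eps * 2 ^ Fintype.card ι) : |g B x - g B z| ≤ eps := by
  have := df_EE B x z (fun _ => 1) (fun _ => by simp) eps h
  simpa [g] using this

lemma ac_near (B : (ι → Bool) → (ι → Bool) → Bool) (x z : ι → Bool) (eps : ℝ)
    (h : (df B x z : ℝ) ≤ eps * 2 ^ Fintype.card ι) (t : ι) :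
    |ac B t x - ac B t z| ≤ eps := by
  have := df_EE B x z (fun y => sg (y t)) (fun _ => by rw [abs_sg]) eps h
  simpa [ac] using this

end GHDSharp
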