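import Mathlib
import Pool.Agent.Lib.GHDSharp.Net
import Pool.Agent.Lib.GHDSharp.Cluster

/-!
# One step of the chain of restrictions
-/

open Finset

namespace GHDSharp

open GHDRace

variable {ι : Type} [Fintype ι] [DecidableEq ι]

/-- the relative bias of the `false` entries of row `x` in the coordinate `t` -/
noncomputable def vv (B : (ι → Bool) → (ι → Bool) → Bool) (x : ι → Bool) (t : ι) : ℝ :=
  ac B t x / g B x

lemma vv_abs (B : (ι → Bool) → (ι → Bool) → Bool) (x : ι → Bool) (t : ι) : |vv B x t| ≤ 1 := by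
  unfold vv
  rw [abs_div, abs_of_nonneg (g_nonneg B x)]
  exact div_le_one_of_le₀ (ac_le B t x) (g_nonneg B x)

lemma ac_eq (B : (ι → Bool) → (ι → Bool) → Bool) (x : ι → Bool) (t : ι) :
    ac B t x = vv B x t * g B x := by
  unfold vv
  rcases eq_or_ne (g B x) 0 with h | h
  · have h1 := ac_le B t x
    rw [h] at h1 ⊢
    have h2 : ac B t x = 0 := abs_nonpos_iff.1 h1
    rw [h2]; simp
  · field_simp

lemma vv_near (B : (ι → Bool) → (ι → Bool) → Bool) (x z : ι → Bool) (eps gam : ℝ)
    (hgam : 0 < gam) (hx : gam ≤ g B x)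
    (h : (df B x z : ℝ) ≤ eps * 2 ^ Fintype.card ι) (t : ι) :
    |vv B x t - vv B z t| ≤ 2 * eps / gam := by
  have hg0 : 0 < g B x := lt_of_lt_of_le hgam hx
  have h1 : vv B x t - vv B z t =
      ((ac B t x - ac B t z) + vv B z t * (g B z - g B x)) / g B x := by
    rw [ac_eq B x t, ac_eq B z t]
    field_simp
    ring
  have h2 := ac_near B x z eps h t
  have h3 := g_near B x z eps h
  have heps : 0 ≤ eps := le_trans (abs_nonneg _) h3
  have h4 : |(ac B t x - ac B t z) + vv B z t * (g B z - g B x)| ≤ 2 * eps := by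
    refine (abs_add_le _ _).trans ?_
    rw [abs_mul, abs_sub_comm (g B z)]
    have h5 : |vv B z t| * |g B x - g B z| ≤ 1 * eps :=
      mul_le_mul (vv_abs B z t) h3 (abs_nonneg _) zero_le_one
    linarith
  rw [h1, abs_div, abs_of_pos hg0, div_le_div_iff₀ hg0 hgam]
  exact mul_le_mul h4 hx hgam.le (by linarith)

/-- the loss of a row, for a row that is close to a row of the net -/
lemma row_loss (B : (ι → Bool) → (ι → Bool) → Bool) (m : ℕ) (hm : 1 ≤ m) (x z : ι → Bool)
    (eps gam : ℝ) (hgam : 0 < gam) (hx : gam ≤ g B x)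
    (h : (df B x z : ℝ) ≤ eps * 2 ^ Fintype.card ι) (t : ι) :
    g B x ^ m - (g B x + sg (x t) * ac B t x) ^ m ≤
      g B x ^ m * (1 - phi m (sg (x t) * vv B z t)) + g B x ^ m * (3 * m * (2 * eps / gam)) := by
  have hg0 : 0 < g B x := lt_of_lt_of_le hgam hx
  have h1 : (g B x + sg (x t) * ac B t x) ^ m = g B x ^ m * (1 + sg (x t) * vv B x t) ^ m := by
    rw [← mul_pow, ac_eq B x t]
    congr 1
    ring
  have hs : ∀ z : ι → Bool, |sg (x t) * vv B z t| ≤ 1 := by
    intro z; rw [abs_mul, abs_sg, one_mul]; exact vv_abs B z t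
  have h2 := phi_le_pow (m := m) (abs_le.1 (hs x)).1
  have h3 := phi_lip hm (abs_le.1 (hs x)).1 (abs_le.1 (hs z)).1
  have h4 : |sg (x t) * vv B x t - sg (x t) * vv B z t| ≤ 2 * eps / gam := by
    rw [← mul_sub, abs_mul, abs_sg, one_mul]
    exact vv_near B x z eps gam hgam hx h t
  have h5 : 3 * (m : ℝ) * |sg (x t) * vv B x t - sg (x t) * vv B z t| ≤
      3 * m * (2 * eps / gam) := mul_le_mul_of_nonneg_left h4 (by positivity)
  rw [h1]
  have h6 : 0 ≤ g B x ^ m := pow_nonneg hg0.le m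
  have h7 : 1 - (1 + sg (x t) * vv B x t) ^ m ≤
      (1 - phi m (sg (x t) * vv B z t)) + 3 * m * (2 * eps / gam) := by linarith
  have := mul_le_mul_of_nonneg_left h7 h6
  linarith

end GHDSharp
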