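import Mathlib
import Pool.Agent.Lib.GHDSharp.Row

/-!
# One step of the chain of restrictions
-/

open Finset

namespace GHDSharp

open GHDRace

variable {ι : Type} [Fintype ι] [DecidableEq ι]

lemma net_card_bound (i L : ℝ) (m d M K : ℕ) (hi : 1 ≤ i) (hm : 2 ≤ m) (hL : 0 ≤ L)
    (hK : K ≤ (M + 1) ^ d) (hM : (M : ℝ) < 12 * m * i ^ 3 * Real.exp (L / m) + 1) (D1 : ℝ)
    (hD1 : Real.log i + d * (Real.log (14 * m * i ^ 3) + L / m) ≤ D1) :
    (K : ℝ) * i ≤ Real.exp D1 := by
  have hm' : (2 : ℝ) ≤ m := by exact_mod_cast hm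
  have hi3 : (1 : ℝ) ≤ i ^ 3 := one_le_pow₀ hi
  have he : 1 ≤ Real.exp (L / m) := Real.one_le_exp (by positivity)
  have h1 : (1 : ℝ) ≤ i ^ 3 * Real.exp (L / m) := by nlinarith
  have h2 : (M : ℝ) + 1 ≤ 14 * m * i ^ 3 * Real.exp (L / m) := by
    have h3 : 12 * (m : ℝ) * i ^ 3 * Real.exp (L / m) = 12 * m * (i ^ 3 * Real.exp (L / m)) := by
      ring
    have h4 : 14 * (m : ℝ) * i ^ 3 * Real.exp (L / m) = 14 * m * (i ^ 3 * Real.exp (L / m)) := by
      ring
    rw [h3] at hM
    rw [h4]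
    nlinarith
  have h3 : (K : ℝ) ≤ (14 * m * i ^ 3 * Real.exp (L / m)) ^ d := by
    have h4 : (K : ℝ) ≤ ((M : ℝ) + 1) ^ d := by exact_mod_cast hK
    exact h4.trans (pow_le_pow_left₀ (by positivity) h2 d)
  have hpos : 0 < 14 * (m : ℝ) * i ^ 3 := by positivity
  have h4 : (14 * m * i ^ 3 * Real.exp (L / m)) ^ d =
      Real.exp (d * (Real.log (14 * m * i ^ 3) + L / m)) := by
    rw [Real.exp_nat_mul, Real.exp_add, Real.exp_log hpos]
  have hi0 : 0 < i := by linarith
  calc (K : ℝ) * i ≤ Real.exp (d * (Real.log (14 * m * i ^ 3) + L / m)) * i := by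
        rw [← h4]; exact mul_le_mul_of_nonneg_right h3 hi0.le
    _ = Real.exp (Real.log i + d * (Real.log (14 * m * i ^ 3) + L / m)) := by
        rw [Real.exp_add, Real.exp_log hi0]; ring
    _ ≤ Real.exp D1 := Real.exp_le_exp.2 hD1

lemma gain_case (B : (ι → Bool) → (ι → Bool) → Bool) (m r : ℕ) (xi0 D1 : ℝ)
    (S : Finset (ι → Bool)) (Ki : ℝ) (hKi : 0 < Ki)
    (hbig : 2 ^ Fintype.card ι * FF m B ≤ (∑ x ∈ S, g B x ^ m) * Ki)
    (hw : 0 < ∑ x ∈ S, g B x ^ m) (h0 : 0 < xi0) (hD1 : Ki ≤ Real.exp D1)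
    (hr : D1 ≤ r * xi0 ^ 2 / 4)
    (hcard : r ≤ (univ.filter fun t => xi0 < |xi S (fun x => g B x ^ m) t|).card) :
    ∃ (R : Finset ι) (u u' : ι → Bool), R.card = r ∧
      FF m B * Real.exp (r * xi0 ^ 2 / 4) ≤ FF m (restr B R u u') := by
  obtain ⟨R, hRs, hRc⟩ := Finset.exists_subset_card_eq hcard
  obtain ⟨u, hu⟩ := cluster_gain S (fun x => g B x ^ m) (fun x => pow_nonneg (g_nonneg B x) m) hw
    xi0 h0.le R (fun t ht => (Finset.mem_filter.1 (hRs ht)).2.le)
  rw [hRc] at hu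
  set f : (ι → Bool) → ℝ := fun u' => ∑ x ∈ S, ag R u x * gR B R u' x ^ m with hf
  obtain ⟨u', hu'⟩ := exists_le_EE f
  refine ⟨R, u, u', hRc, ?_⟩
  set w := ∑ x ∈ S, g B x ^ m with hwdef
  set N : ℝ := 2 ^ Fintype.card ι with hN
  have hN0 : 0 < N := by positivity
  have h2 : ∑ x ∈ S, g B x ^ m * ag R u x ≤ EE f := by
    rw [hf, EE_sum]
    refine Finset.sum_le_sum fun x _ => ?_
    rw [EE_mul_left, mul_comm]
    refine mul_le_mul_of_nonneg_left ?_ (ag_nonneg _ _ _)
    have h3 := EE_pow_le (fun u' => gR B R u' x) (fun u' => gR_nonneg B R u' x) m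
    rwa [EE_gR] at h3
  have h3 : f u' ≤ N * FF m (restr B R u u') := by
    rw [FF_restr]
    unfold EE
    rw [← hN, mul_div_cancel₀ _ hN0.ne']
    exact Finset.sum_le_sum_of_subset_of_nonneg (Finset.subset_univ _)
      fun x _ _ => mul_nonneg (ag_nonneg _ _ _) (pow_nonneg (gR_nonneg B R u' x) m)
  have h4 : w * Real.exp (r * xi0 ^ 2 / 2) ≤ N * FF m (restr B R u u') :=
    hu.trans (h2.trans (hu'.trans h3))
  have h5 : N * FF m B * Real.exp (r * xi0 ^ 2 / 4) ≤ w * Real.exp (r * xi0 ^ 2 / 2) := by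
    have h6 : Real.exp (r * xi0 ^ 2 / 2) =
        Real.exp (r * xi0 ^ 2 / 4) * Real.exp (r * xi0 ^ 2 / 4) := by
      rw [← Real.exp_add]; congr 1; ring
    have h7 : Ki ≤ Real.exp (r * xi0 ^ 2 / 4) := hD1.trans (Real.exp_le_exp.2 hr)
    rw [h6, ← mul_assoc]
    refine mul_le_mul_of_nonneg_right ?_ (Real.exp_pos _).le
    exact hbig.trans (mul_le_mul_of_nonneg_left h7 hw.le)
  have h6 : N * (FF m B * Real.exp (r * xi0 ^ 2 / 4)) ≤ N * FF m (restr B R u u') := by
    rw [← mul_assoc]; exact h5.trans h4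
  exact le_of_mul_le_mul_left h6 hN0

/-- the total loss over all coordinates, if no big cluster is strongly biased -/
lemma total_loss (B : (ι → Bool) → (ι → Bool) → Bool) (m r : ℕ) (L xi0 D1 : ℝ)
    (hi : 1 ≤ Fintype.card ι) (hm : 2 ≤ m) (hF : Real.exp (-L) ≤ FF m B)
    (h0 : 0 < xi0) (h1 : xi0 ≤ 1 / 10) (gam : ℝ)
    (hgam : gam = Real.exp (-L / m) / Fintype.card ι)
    (Z : Finset (ι → Bool)) (z : (ι → Bool) → (ι → Bool)) (hzZ : ∀ x, z x ∈ Z)
    (hz : ∀ x, (df B x (z x) : ℝ) ≤ gam / (6 * m * Fintype.card ι) * 2 ^ Fintype.card ι)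
    (hK : (Z.card : ℝ) * Fintype.card ι ≤ Real.exp D1)
    (hno : ∀ ζ ∈ Z, 2 ^ Fintype.card ι * FF m B ≤
      (∑ x ∈ univ.filter (fun x => gam ≤ g B x ∧ z x = ζ), g B x ^ m) *
        ((Z.card : ℝ) * Fintype.card ι) →
      (univ.filter fun t => xi0 < |xi (univ.filter (fun x => gam ≤ g B x ∧ z x = ζ))
        (fun x => g B x ^ m) t|).card ≤ r) :
    ∑ t, ∑ x, (g B x ^ m - (g B x + sg (x t) * ac B t x) ^ m) ≤
      2 ^ Fintype.card ι * FF m B * ((1 + 1 / ((m : ℝ) - 1) + xi0) * (L + D1) + r + 3) := by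
  set i : ℝ := ((Fintype.card ι : ℕ) : ℝ) with hidef
  set N : ℝ := 2 ^ Fintype.card ι with hN
  set F := FF m B with hFdef
  set kap := 1 + 1 / ((m : ℝ) - 1) + xi0 with hkap
  set G : (ι → Bool) → ℝ := fun x => g B x ^ m with hG
  set S : (ι → Bool) → Finset (ι → Bool) := fun ζ => univ.filter (fun x => gam ≤ g B x ∧ z x = ζ)
    with hS
  have hN0 : 0 < N := by positivity
  have hi1 : 1 ≤ i := by rw [hidef]; exact_mod_cast hi
  have hi0 : 0 < i := by linarith
  have hm' : (2 : ℝ) ≤ m := by exact_mod_cast hm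
  have hF0 : 0 < F := lt_of_lt_of_le (Real.exp_pos _) hF
  have hgam0 : 0 < gam := by rw [hgam]; positivity
  have hG0 : ∀ x, 0 ≤ G x := fun x => pow_nonneg (g_nonneg B x) m
  have hG1 : ∀ x, G x ≤ 1 := fun x => pow_le_one₀ (g_nonneg B x) (g_le_one B x)
  have hGsum : ∑ x, G x = N * F := by
    rw [hFdef]; unfold FF EE; rw [← hN, mul_div_cancel₀ _ hN0.ne']
  have hkap0 : 0 ≤ kap := by
    have : (0 : ℝ) < (m : ℝ) - 1 := by linarith
    positivity
  -- bad rows
  have hbad : ∀ t, ∑ x ∈ univ.filter (fun x => ¬ gam ≤ g B x),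
      (g B x ^ m - (g B x + sg (x t) * ac B t x) ^ m) ≤ N * F / i := by
    intro t
    have h2 : ∀ x ∈ univ.filter (fun x => ¬ gam ≤ g B x),
        (g B x ^ m - (g B x + sg (x t) * ac B t x) ^ m) ≤ F / i := by
      intro x hx
      have hx' : g B x < gam := by
        have := (Finset.mem_filter.1 hx).2
        push Not at this; exact this
      have h3 : 0 ≤ (g B x + sg (x t) * ac B t x) ^ m := by
        refine pow_nonneg ?_ m
        have h4 : |sg (x t) * ac B t x| ≤ g B x := by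
          rw [abs_mul, abs_sg, one_mul]; exact ac_le B t x
        linarith [(abs_le.1 h4).1]
      have h4 : g B x ^ m ≤ gam ^ m := pow_le_pow_left₀ (g_nonneg B x) hx'.le m
      have h5 : gam ^ m ≤ F / i := by
        rw [hgam, div_pow, ← Real.exp_nat_mul]
        have h6 : (m : ℝ) * (-L / m) = -L := by field_simp
        rw [h6]
        refine div_le_div₀ hF0.le hF hi0 ?_
        calc i = i ^ 1 := (pow_one _).symm
          _ ≤ i ^ m := pow_le_pow_right₀ hi1 (by omega)
      linarith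
    refine (Finset.sum_le_sum h2).trans ?_
    rw [Finset.sum_const, nsmul_eq_mul]
    have h3 : ((univ.filter (fun x : ι → Bool => ¬ gam ≤ g B x)).card : ℝ) ≤ N := by
      have h4 := Finset.card_le_univ (univ.filter (fun x : ι → Bool => ¬ gam ≤ g B x))
      rw [Fintype.card_fun, Fintype.card_bool] at h4
      rw [hN]; exact_mod_cast h4
    have h4 : 0 ≤ F / i := by positivity
    calc _ ≤ N * (F / i) := mul_le_mul_of_nonneg_right h3 h4
      _ = _ := by ring
  -- good rows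
  have hgood : ∀ t, ∑ x ∈ univ.filter (fun x => gam ≤ g B x),
      (g B x ^ m - (g B x + sg (x t) * ac B t x) ^ m) ≤
      (∑ ζ ∈ Z, ∑ x ∈ S ζ, G x * (1 - phi m (sg (x t) * vv B ζ t))) + N * F / i := by
    intro t
    have h2 : ∀ x ∈ univ.filter (fun x => gam ≤ g B x),
        (g B x ^ m - (g B x + sg (x t) * ac B t x) ^ m) ≤
          G x * (1 - phi m (sg (x t) * vv B (z x) t)) + G x * (1 / i) := by
      intro x hx
      have hx' : gam ≤ g B x := (Finset.mem_filter.1 hx).2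
      have h3 := row_loss B m (by omega) x (z x) (gam / (6 * m * i)) gam hgam0 hx' (hz x) t
      have h4 : 3 * (m : ℝ) * (2 * (gam / (6 * m * i)) / gam) = 1 / i := by
        field_simp; norm_num
      rw [h4] at h3
      exact h3
    refine (Finset.sum_le_sum h2).trans ?_
    rw [Finset.sum_add_distrib]
    refine add_le_add (le_of_eq ?_) ?_
    · rw [← Finset.sum_fiberwise_of_maps_to (t := Z) (g := z) (fun x _ => hzZ x)]
      refine Finset.sum_congr rfl fun ζ _ => ?_
      rw [Finset.filter_filter]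
      refine Finset.sum_congr rfl fun x hx => ?_
      rw [(Finset.mem_filter.1 hx).2.2]
    · rw [← Finset.sum_mul, mul_one_div, ← hGsum]
      refine div_le_div_of_nonneg_right ?_ hi0.le
      exact Finset.sum_le_sum_of_subset_of_nonneg (Finset.subset_univ _) fun x _ _ => hG0 x
  -- the clusters
  have hclus : ∀ ζ ∈ Z, ∑ t, ∑ x ∈ S ζ, G x * (1 - phi m (sg (x t) * vv B ζ t)) ≤
      (∑ x ∈ S ζ, G x) * (kap * (L + D1) + r) + N * F / Z.card := by
    intro ζ hζ
    have hZ0 : (0 : ℝ) < Z.card := by exact_mod_cast Finset.card_pos.2 ⟨ζ, hζ⟩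
    have hw0 : 0 ≤ ∑ x ∈ S ζ, G x := Finset.sum_nonneg fun x _ => hG0 x
    have hLD : 0 ≤ L + D1 := by
      have h3 : (1 : ℝ) ≤ Real.exp D1 := by
        have h4 : (1 : ℝ) ≤ Z.card := by exact_mod_cast Finset.card_pos.2 ⟨ζ, hζ⟩
        exact le_trans (by nlinarith) hK
      have h4 : 0 ≤ D1 := by
        rw [← Real.exp_zero] at h3
        exact Real.exp_le_exp.1 h3
      have h5 : 0 ≤ L := by
        have h6 : F ≤ 1 := by
          rw [hFdef]
          calc FF m B ≤ EE (fun _ : ι → Bool => (1 : ℝ)) := EE_mono hG1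
            _ = 1 := EE_const 1
        have h7 : Real.exp (-L) ≤ 1 := hF.trans h6
        have := Real.exp_le_one_iff.1 h7
        linarith
      linarith
    by_cases hc : N * F ≤ (∑ x ∈ S ζ, G x) * ((Z.card : ℝ) * i)
    · have h2 := hno ζ hζ hc
      have hwpos : 0 < ∑ x ∈ S ζ, G x := by
        rcases eq_or_lt_of_le hw0 with h | h
        · rw [← h, zero_mul] at hc
          have : 0 < N * F := by positivity
          linarith
        · exact h
      have h3 : N ≤ (∑ x ∈ S ζ, G x) * Real.exp (L + D1) := by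
        have h4 : N * F ≤ (∑ x ∈ S ζ, G x) * Real.exp D1 :=
          hc.trans (mul_le_mul_of_nonneg_left hK hw0)
        have h5 : N * Real.exp (-L) ≤ (∑ x ∈ S ζ, G x) * Real.exp D1 :=
          (mul_le_mul_of_nonneg_left hF hN0.le).trans h4
        have h6 := mul_le_mul_of_nonneg_right h5 (Real.exp_pos L).le
        have h7 : N * Real.exp (-L) * Real.exp L = N := by
          rw [mul_assoc, ← Real.exp_add]; simp
        have h8 : (∑ x ∈ S ζ, G x) * Real.exp D1 * Real.exp L =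
            (∑ x ∈ S ζ, G x) * Real.exp (L + D1) := by
          rw [mul_assoc, ← Real.exp_add, add_comm]
        rw [h7, h8] at h6
        exact h6
      have h4 := cluster_loss m hm (S ζ) G hG0 hG1 hwpos (vv B ζ) (vv_abs B ζ) xi0 h0.le h1 r h2
        (L + D1) h3
      have h5 : 0 ≤ N * F / Z.card := by positivity
      linarith
    · push Not at hc
      have h2 : ∑ t, ∑ x ∈ S ζ, G x * (1 - phi m (sg (x t) * vv B ζ t)) ≤
          ∑ _t : ι, ∑ x ∈ S ζ, G x := by
        refine Finset.sum_le_sum fun t _ => Finset.sum_le_sum fun x _ => ?_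
        have h3 : |sg (x t) * vv B ζ t| ≤ 1 := by
          rw [abs_mul, abs_sg, one_mul]; exact vv_abs B ζ t
        have h4 := phi_nonneg (m := m) (abs_le.1 h3).1
        have := mul_nonneg (hG0 x) h4
        linarith
      rw [Finset.sum_const, Finset.card_univ, nsmul_eq_mul] at h2
      have h3 : (Fintype.card ι : ℝ) * ∑ x ∈ S ζ, G x ≤ N * F / Z.card := by
        rw [le_div_iff₀ hZ0]
        nlinarith
      have h4 : 0 ≤ (∑ x ∈ S ζ, G x) * (kap * (L + D1) + r) := by positivity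
      linarith
  -- sum up
  have hZne : Z.Nonempty := ⟨z (fun _ => true), hzZ _⟩
  have hZ0 : (0 : ℝ) < Z.card := by exact_mod_cast Finset.card_pos.2 hZne
  have hw : ∑ ζ ∈ Z, ∑ x ∈ S ζ, G x ≤ N * F := by
    rw [← hGsum]
    have h2 : ∑ ζ ∈ Z, ∑ x ∈ S ζ, G x = ∑ x ∈ univ.filter (fun x => gam ≤ g B x), G x := by
      rw [← Finset.sum_fiberwise_of_maps_to (s := univ.filter (fun x => gam ≤ g B x)) (t := Z)
        (g := z) (fun x _ => hzZ x) G]
      refine Finset.sum_congr rfl fun ζ _ => ?_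
      rw [Finset.filter_filter]
    rw [h2]
    exact Finset.sum_le_sum_of_subset_of_nonneg (Finset.subset_univ _) fun x _ _ => hG0 x
  have hLD : 0 ≤ kap * (L + D1) + r := by
    have h3 : (1 : ℝ) ≤ Real.exp D1 := by
      have h4 : (1 : ℝ) ≤ Z.card := by exact_mod_cast Finset.card_pos.2 hZne
      exact le_trans (by nlinarith) hK
    have h4 : 0 ≤ D1 := by
      rw [← Real.exp_zero] at h3
      exact Real.exp_le_exp.1 h3
    have h5 : 0 ≤ L := by
      have h6 : F ≤ 1 := by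
        rw [hFdef]
        calc FF m B ≤ EE (fun _ : ι → Bool => (1 : ℝ)) := EE_mono hG1
          _ = 1 := EE_const 1
      have h7 : Real.exp (-L) ≤ 1 := hF.trans h6
      have := Real.exp_le_one_iff.1 h7
      linarith
    positivity
  calc ∑ t, ∑ x, (g B x ^ m - (g B x + sg (x t) * ac B t x) ^ m)
      = ∑ t, (∑ x ∈ univ.filter (fun x => gam ≤ g B x),
          (g B x ^ m - (g B x + sg (x t) * ac B t x) ^ m) +
        ∑ x ∈ univ.filter (fun x => ¬ gam ≤ g B x),
          (g B x ^ m - (g B x + sg (x t) * ac B t x) ^ m)) := by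
        refine Finset.sum_congr rfl fun t _ => ?_
        rw [Finset.sum_filter_add_sum_filter_not]
    _ ≤ ∑ t : ι, (((∑ ζ ∈ Z, ∑ x ∈ S ζ, G x * (1 - phi m (sg (x t) * vv B ζ t))) + N * F / i) +
          N * F / i) := Finset.sum_le_sum fun t _ => add_le_add (hgood t) (hbad t)
    _ = (∑ ζ ∈ Z, ∑ t, ∑ x ∈ S ζ, G x * (1 - phi m (sg (x t) * vv B ζ t))) + 2 * (N * F) := by
        rw [Finset.sum_add_distrib, Finset.sum_add_distrib, Finset.sum_comm, Finset.sum_const,
          Finset.card_univ, nsmul_eq_mul]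
        have : (Fintype.card ι : ℝ) * (N * F / i) = N * F := by
          rw [← hidef]; field_simp
        rw [this]; ring
    _ ≤ (∑ ζ ∈ Z, ((∑ x ∈ S ζ, G x) * (kap * (L + D1) + r) + N * F / Z.card)) + 2 * (N * F) := by
        gcongr with ζ hζ
        exact hclus ζ hζ
    _ = (∑ ζ ∈ Z, ∑ x ∈ S ζ, G x) * (kap * (L + D1) + r) + N * F + 2 * (N * F) := by
        rw [Finset.sum_add_distrib, ← Finset.sum_mul, Finset.sum_const, nsmul_eq_mul]
        have : (Z.card : ℝ) * (N * F / Z.card) = N * F := by field_simp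
        rw [this]
    _ ≤ N * F * (kap * (L + D1) + r) + N * F + 2 * (N * F) := by
        have := mul_le_mul_of_nonneg_right hw hLD
        linarith
    _ = N * F * (kap * (L + D1) + r + 3) := by ring

/-- **One step.** -/
theorem step (B : (ι → Bool) → (ι → Bool) → Bool) (m d r : ℕ) (L xi0 D1 : ℝ)
    (hi : 1 ≤ Fintype.card ι) (hm : 2 ≤ m) (hd : VCle d B) (hL : 0 ≤ L)
    (hF : Real.exp (-L) ≤ FF m B) (h0 : 0 < xi0) (h1 : xi0 ≤ 1 / 10)
    (hD1 : Real.log (Fintype.card ι) + d * (Real.log (14 * m * (Fintype.card ι : ℝ) ^ 3) + L / m)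
      ≤ D1) (hr : D1 ≤ r * xi0 ^ 2 / 4) :
    (∃ (t : ι) (b : Bool), FF m B * (1 - ((1 + 1 / ((m : ℝ) - 1) + xi0) * (L + D1) + r + 3) /
        Fintype.card ι) ≤ FF m (restr B {t} (fun _ => b) (fun _ => b))) ∨
    (∃ (R : Finset ι) (u u' : ι → Bool), R.card = r ∧
      FF m B * Real.exp (r * xi0 ^ 2 / 4) ≤ FF m (restr B R u u')) := by
  classical
  set i : ℝ := ((Fintype.card ι : ℕ) : ℝ) with hidef
  set N : ℝ := 2 ^ Fintype.card ι with hN
  have hN0 : 0 < N := by positivity
  have hi1 : 1 ≤ i := by rw [hidef]; exact_mod_cast hi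
  have hi0 : 0 < i := by linarith
  have hm' : (2 : ℝ) ≤ m := by exact_mod_cast hm
  have hF0 : 0 < FF m B := lt_of_lt_of_le (Real.exp_pos _) hF
  obtain ⟨gam, hgam⟩ : ∃ gam, gam = Real.exp (-L / m) / i := ⟨_, rfl⟩
  have hgam0 : 0 < gam := by rw [hgam]; positivity
  obtain ⟨eps, heps⟩ : ∃ eps, eps = gam / (6 * m * i) := ⟨_, rfl⟩
  have heps0 : 0 < eps := by rw [heps]; positivity
  have heq : 2 * i / eps = 12 * m * i ^ 3 * Real.exp (L / m) := by
    have h2 : Real.exp (L / m) = (Real.exp (-L / m))⁻¹ := by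
      rw [← Real.exp_neg]; congr 1; ring
    rw [heps, hgam, h2]
    have h3 := Real.exp_pos (-L / m)
    field_simp
    norm_num
  set M := ⌈2 * i / eps⌉₊ with hMdef
  have hM1 : 2 * i ≤ eps * M := by
    have := Nat.le_ceil (2 * i / eps)
    rw [div_le_iff₀ heps0] at this
    rw [mul_comm eps]
    exact this
  have hM2 : (M : ℝ) < 12 * m * i ^ 3 * Real.exp (L / m) + 1 := by
    rw [← heq]
    exact Nat.ceil_lt_add_one (by positivity)
  obtain ⟨Z, hZc, hZ⟩ := net B d hd eps heps0 M hi hM1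
  choose z hzZ hz using hZ
  have hK := net_card_bound i L m d M Z.card hi1 hm hL hZc hM2 D1 hD1
  by_cases hcase : ∃ ζ ∈ Z, N * FF m B ≤
      (∑ x ∈ univ.filter (fun x => gam ≤ g B x ∧ z x = ζ), g B x ^ m) * ((Z.card : ℝ) * i) ∧
      r ≤ (univ.filter fun t => xi0 < |xi (univ.filter (fun x => gam ≤ g B x ∧ z x = ζ))
        (fun x => g B x ^ m) t|).card
  · right
    obtain ⟨ζ, hζ, hbig, hcard⟩ := hcase
    have hZ0 : (0 : ℝ) < Z.card := by exact_mod_cast Finset.card_pos.2 ⟨ζ, hζ⟩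
    have hw0 : 0 ≤ ∑ x ∈ univ.filter (fun x => gam ≤ g B x ∧ z x = ζ), g B x ^ m :=
      Finset.sum_nonneg fun x _ => pow_nonneg (g_nonneg B x) m
    refine gain_case B m r xi0 D1 _ ((Z.card : ℝ) * i) (by positivity) hbig ?_ h0 hK hr hcard
    rcases eq_or_lt_of_le hw0 with h | h
    · rw [← h, zero_mul] at hbig
      have : 0 < N * FF m B := by positivity
      linarith
    · exact h
  · left
    push Not at hcase
    have htot := total_loss B m r L xi0 D1 hi hm hF h0 h1 gam hgam Z z hzZ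
      (fun x => by rw [← hidef, ← heps]; exact hz x) hK (fun ζ hζ h => (hcase ζ hζ h).le)
    rw [← hN] at htot
    set A := (1 + 1 / ((m : ℝ) - 1) + xi0) * (L + D1) + r + 3 with hA
    have h2 : ∑ t : ι, ∑ x, (g B x ^ m - (g B x + sg (x t) * ac B t x) ^ m) ≤
        ∑ _t : ι, N * FF m B * A / i := by
      rw [Finset.sum_const, Finset.card_univ, nsmul_eq_mul, ← hidef]
      refine htot.trans (le_of_eq ?_)
      field_simp
    have : Nonempty ι := Fintype.card_pos_iff.1 (by omega)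
    obtain ⟨t, _, ht⟩ := Finset.exists_le_of_sum_le univ_nonempty h2
    have h3 := FF_half m B t
    have h4 : EE (fun x => (g B x + sg (x t) * ac B t x) ^ m) ≥ FF m B * (1 - A / i) := by
      have h5 : N * (FF m B - EE (fun x => (g B x + sg (x t) * ac B t x) ^ m)) =
          ∑ x, (g B x ^ m - (g B x + sg (x t) * ac B t x) ^ m) := by
        unfold FF EE
        rw [← hN, Finset.sum_sub_distrib]
        field_simp
      rw [← h5] at ht
      have h6 : N * FF m B * A / i = N * (FF m B * A / i) := by ring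
      rw [h6] at ht
      have h7 := le_of_mul_le_mul_left ht hN0
      have h8 : FF m B * (1 - A / i) = FF m B - FF m B * A / i := by ring
      rw [h8]
      linarith
    rw [← h3] at h4
    by_cases hb : FF m B * (1 - A / i) ≤ FF m (restr B {t} (fun _ => true) (fun _ => true))
    · exact ⟨t, true, hb⟩
    · push Not at hb
      exact ⟨t, false, by linarith⟩

end GHDSharp
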