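import Mathlib
import Pool.Agent.Lib.GHDSharp.Step
import Pool.Agent.Lib.GHDSharp.Restr

/-!
# The chain of restrictions
-/

open Finset

namespace GHDSharp

open GHDRace

lemma exp_loss {e : ℝ} (h0 : 0 ≤ e) (h1 : e ≤ 1 / 2) : Real.exp (-(e + e ^ 2)) ≤ 1 - e := by
  have h2 : 1 + (e + e ^ 2) + (e + e ^ 2) ^ 2 / 2 ≤ Real.exp (e + e ^ 2) :=
    Real.quadratic_le_exp_of_nonneg (by positivity)
  have h3 : 1 ≤ (1 - e) * Real.exp (e + e ^ 2) := by
    have h4 : 1 ≤ (1 - e) * (1 + (e + e ^ 2) + (e + e ^ 2) ^ 2 / 2) := by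
      have h5 : 0 ≤ e ^ 2 * (1 - e - e ^ 2 - e ^ 3) := by
        refine mul_nonneg (by positivity) ?_
        have h6 : e ^ 2 ≤ 1 / 4 := by nlinarith
        have h7 : e ^ 3 ≤ 1 / 8 := by nlinarith
        linarith
      nlinarith [h5]
    exact h4.trans (mul_le_mul_of_nonneg_left h2 (by linarith))
  rw [Real.exp_neg, inv_le_iff_one_le_mul₀ (Real.exp_pos _)]
  exact h3

/-- the critical value of the potential -/
noncomputable def Psi (V p : ℝ) (i0 i : ℕ) : ℝ :=
  if i ≤ i0 then V else V * ((i0 : ℝ) / i) ^ p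

lemma Psi_le (V p : ℝ) (i0 i : ℕ) (hV : 0 ≤ V) (hp : 0 ≤ p) : Psi V p i0 i ≤ V := by
  unfold Psi
  split_ifs with h
  · exact le_rfl
  · push Not at h
    have h1 : ((i0 : ℝ) / i) ≤ 1 := div_le_one_of_le₀ (by exact_mod_cast h.le) (by positivity)
    have h2 := Real.rpow_le_one (by positivity : (0 : ℝ) ≤ (i0 : ℝ) / i) h1 hp
    nlinarith

lemma Psi_anti (V p : ℝ) (i0 i j : ℕ) (hV : 0 ≤ V) (hp : 0 ≤ p) (hij : i ≤ j) :
    Psi V p i0 j ≤ Psi V p i0 i := by
  by_cases h : i ≤ i0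
  · have h1 : Psi V p i0 i = V := by unfold Psi; rw [if_pos h]
    rw [h1]; exact Psi_le V p i0 j hV hp
  · push Not at h
    unfold Psi
    rw [if_neg (by omega), if_neg (by omega)]
    refine mul_le_mul_of_nonneg_left ?_ hV
    refine Real.rpow_le_rpow (by positivity) ?_ hp
    refine div_le_div_of_nonneg_left (by positivity) ?_ (by exact_mod_cast hij)
    have : 0 < i := by omega
    exact_mod_cast this

lemma Psi_step (V p : ℝ) (i0 i : ℕ) (hV : 0 ≤ V) (hp : 1 ≤ p) (h0 : 1 ≤ i0) (hi : i0 < i) :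
    Psi V p i0 i * (1 + p / i) ≤ Psi V p i0 (i - 1) := by
  have hi0 : (0 : ℝ) < i := by exact_mod_cast (by omega : 0 < i)
  have hi1 : (0 : ℝ) < (i : ℝ) - 1 := by
    have : (1 : ℝ) < i := by exact_mod_cast (by omega : 1 < i)
    linarith
  have hc : ((i - 1 : ℕ) : ℝ) = (i : ℝ) - 1 := by
    rw [Nat.cast_sub (by omega)]; simp
  have h1 : Psi V p i0 (i - 1) = V * ((i0 : ℝ) / ((i : ℝ) - 1)) ^ p := by
    unfold Psi
    split_ifs with h
    · have h2 : i - 1 = i0 := by omega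
      have h3 : ((i : ℝ) - 1) = i0 := by rw [← hc, h2]
      rw [h3, div_self (by rw [← h3]; exact hi1.ne'), Real.one_rpow, mul_one]
    · rw [hc]
  have h2 : Psi V p i0 i = V * ((i0 : ℝ) / i) ^ p := by
    unfold Psi; rw [if_neg (by omega)]
  rw [h1, h2, mul_assoc]
  refine mul_le_mul_of_nonneg_left ?_ hV
  have h3 : 1 + p / i ≤ ((i : ℝ) / ((i : ℝ) - 1)) ^ p := by
    have h4 := one_add_mul_self_le_rpow_one_add (s := 1 / ((i : ℝ) - 1)) (by
      have : 0 ≤ 1 / ((i : ℝ) - 1) := by positivity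
      linarith) hp
    have h5 : 1 + 1 / ((i : ℝ) - 1) = (i : ℝ) / ((i : ℝ) - 1) := by field_simp; ring
    rw [h5] at h4
    refine le_trans ?_ h4
    have h6 : p / i ≤ p * (1 / ((i : ℝ) - 1)) := by
      rw [mul_one_div]
      exact div_le_div_of_nonneg_left (by linarith) hi1 (by linarith)
    linarith
  have h4 : ((i0 : ℝ) / ((i : ℝ) - 1)) ^ p =
      ((i0 : ℝ) / i) ^ p * ((i : ℝ) / ((i : ℝ) - 1)) ^ p := by
    rw [← Real.mul_rpow (by positivity) (by positivity)]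
    congr 1
    field_simp
  rw [h4]
  exact mul_le_mul_of_nonneg_left h3 (by positivity)

/-- **The potential stays above the critical value.** -/
theorem chain (n k d Q m : ℕ) (hQ : 10 ≤ Q) (hd : 1 ≤ d) (hk : 2 ≤ k) (hn : 1 ≤ n)
    (hm : m = Q ^ 3 * d) (D Bc : ℝ)
    (hD : D = Real.log n + d * Real.log (14 * m * (n : ℝ) ^ 3))
    (hB : Bc = 5 * (Q : ℝ) ^ 2 * D + 4) (N : ℕ) :
    ∀ (ι : Type) [Fintype ι] [DecidableEq ι] (B : (ι → Bool) → (ι → Bool) → Bool) (h : ℕ) (L : ℝ),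
      Fintype.card ι = N → N ≤ n → Near k h B → VCle d B → 0 ≤ L → Real.exp (-L) ≤ FF m B →
      Psi ((k : ℝ) / (8 * (Q : ℝ) ^ 2)) (1 + 9 / Q) (k / 2) N <
        L + Bc + h / (4 * (Q : ℝ) ^ 2) := by
  induction N using Nat.strong_induction_on with
  | _ N ih =>
  intro ι _ _ B h L hcard hNn hnear hvc hL hF
  have hQ' : (10 : ℝ) ≤ Q := by exact_mod_cast hQ
  have hQ0 : (0 : ℝ) < Q := by linarith
  have hd' : (1 : ℝ) ≤ d := by exact_mod_cast hd
  have hn' : (1 : ℝ) ≤ n := by exact_mod_cast hn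
  have hm' : (m : ℝ) = (Q : ℝ) ^ 3 * d := by rw [hm]; push_cast; ring
  have hQ3 : (1000 : ℝ) ≤ (Q : ℝ) ^ 3 := by
    calc (1000 : ℝ) = 10 ^ 3 := by norm_num
      _ ≤ _ := pow_le_pow_left₀ (by norm_num) hQ' 3
  have hmbig : (Q : ℝ) ^ 3 ≤ m := by rw [hm']; nlinarith
  have hm2 : 2 ≤ m := by
    have : (2 : ℝ) ≤ m := by linarith
    exact_mod_cast this
  set V : ℝ := (k : ℝ) / (8 * (Q : ℝ) ^ 2) with hV
  set p : ℝ := 1 + 9 / Q with hp
  have hV0 : 0 ≤ V := by positivity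
  have hp1 : 1 ≤ p := by
    have : 0 ≤ 9 / (Q : ℝ) := by positivity
    linarith
  by_contra hcon
  push Not at hcon
  have hPV : L + Bc + h / (4 * (Q : ℝ) ^ 2) ≤ V := hcon.trans (Psi_le V p _ N hV0 (by linarith))
  -- D is nonnegative
  have hlogn : 0 ≤ Real.log n := Real.log_nonneg hn'
  have hn3 : (1 : ℝ) ≤ (n : ℝ) ^ 3 := one_le_pow₀ hn'
  have hlog2 : 0 < Real.log (14 * m * (n : ℝ) ^ 3) := by
    apply Real.log_pos
    nlinarith
  have hD0 : 0 < D := by rw [hD]; positivity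
  have hB0 : 0 ≤ Bc := by rw [hB]; positivity
  -- few mismatches
  have hh : 2 * h ≤ k := by
    have h1 : (h : ℝ) / (4 * (Q : ℝ) ^ 2) ≤ V := by linarith
    rw [hV, div_le_div_iff₀ (by positivity) (by positivity)] at h1
    have hQ2 : (0 : ℝ) < 4 * (Q : ℝ) ^ 2 := by positivity
    have h2 : (4 * (Q : ℝ) ^ 2) * (2 * h) ≤ (4 * (Q : ℝ) ^ 2) * k := by nlinarith
    have h3 : (2 * (h : ℝ)) ≤ k := le_of_mul_le_mul_left h2 hQ2
    exact_mod_cast h3
  by_cases hsmall : N ≤ k / 2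
  · have h1 : FF m B = 0 := FF_zero hnear (by omega) (by omega)
    rw [h1] at hF
    exact absurd hF (not_le.2 (Real.exp_pos _))
  push Not at hsmall
  have hN1 : 1 ≤ N := by omega
  have hN0 : (0 : ℝ) < N := by exact_mod_cast hN1
  have hkN : (k : ℝ) < 2 * N := by exact_mod_cast (by omega : k < 2 * N)
  -- the parameters of the step
  set D1 : ℝ := D + L / (Q : ℝ) ^ 3 with hD1
  set r : ℕ := ⌈4 * (Q : ℝ) ^ 2 * D1⌉₊ with hr
  have hD10 : 0 < D1 := by rw [hD1]; positivity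
  have hr1 : 4 * (Q : ℝ) ^ 2 * D1 ≤ r := Nat.le_ceil _
  have hr2 : (r : ℝ) < 4 * (Q : ℝ) ^ 2 * D1 + 1 := Nat.ceil_lt_add_one (by positivity)
  have hrpos : 1 ≤ r := by
    have : (0 : ℝ) < r := lt_of_lt_of_le (by positivity) hr1
    exact_mod_cast this
  have hcard' : (Fintype.card ι : ℝ) = N := by rw [hcard]
  have hNn' : (N : ℝ) ≤ n := by exact_mod_cast hNn
  have hN1' : (1 : ℝ) ≤ N := by exact_mod_cast hN1
  have hcondD : Real.log (Fintype.card ι) +
      d * (Real.log (14 * m * (Fintype.card ι : ℝ) ^ 3) + L / m) ≤ D1 := by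
    rw [hcard', hD1, hD]
    have h1 : Real.log N ≤ Real.log n := Real.log_le_log hN0 hNn'
    have h2 : Real.log (14 * m * (N : ℝ) ^ 3) ≤ Real.log (14 * m * (n : ℝ) ^ 3) := by
      apply Real.log_le_log (by positivity)
      have := pow_le_pow_left₀ hN0.le hNn' 3
      exact mul_le_mul_of_nonneg_left this (by positivity)
    have h3 : (d : ℝ) * (L / m) = L / (Q : ℝ) ^ 3 := by
      rw [hm']; field_simp
    have h4 := mul_le_mul_of_nonneg_left h2 (by linarith : (0 : ℝ) ≤ d)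
    rw [mul_add, h3]
    linarith
  have hcondr : D1 ≤ r * (1 / (Q : ℝ)) ^ 2 / 4 := by
    have h1 : (r : ℝ) * (1 / (Q : ℝ)) ^ 2 / 4 = r / (4 * (Q : ℝ) ^ 2) := by field_simp
    rw [h1, le_div_iff₀ (by positivity)]
    linarith
  have hxi0 : (1 : ℝ) / Q ≤ 1 / 10 := one_div_le_one_div_of_le (by norm_num) hQ'
  obtain ⟨t, b, hstep⟩ | ⟨R, u, u', hRc, hstep⟩ := step B m d r L (1 / Q) D1 (by omega) hm2 hvc hL
    hF (by positivity) hxi0 hcondD hcondr
  · -- the loss
    set A : ℝ := (1 + 1 / ((m : ℝ) - 1) + 1 / Q) * (L + D1) + r + 3 with hA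
    rw [hcard'] at hstep
    have hA1 : A ≤ (1 + 7 / Q) * (L + Bc) := by
      have h1 : 1 / ((m : ℝ) - 1) ≤ 1 / Q := by
        apply one_div_le_one_div_of_le hQ0
        nlinarith
      have h2 : (1 + 1 / ((m : ℝ) - 1) + 1 / Q) * (L + D1) ≤ (1 + 2 / Q) * (L + D1) := by
        refine mul_le_mul_of_nonneg_right ?_ (by positivity)
        have : (2 : ℝ) / Q = 1 / Q + 1 / Q := by ring
        linarith
      set q : ℝ := 1 / Q with hq
      have hq0 : 0 < q := by positivity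
      have hq1 : q ≤ 1 / 10 := hxi0
      have e1 : (2 : ℝ) / Q = 2 * q := by rw [hq]; ring
      have e2 : (7 : ℝ) / Q = 7 * q := by rw [hq]; ring
      have e3 : L / (Q : ℝ) ^ 3 = q ^ 3 * L := by rw [hq]; field_simp
      have e4 : 4 * (Q : ℝ) ^ 2 * D1 = 4 * (Q : ℝ) ^ 2 * D + 4 * q * L := by
        rw [hD1, hq]; field_simp
      have e5 : (100 : ℝ) ≤ (Q : ℝ) ^ 2 := by nlinarith
      have h3 : A ≤ (1 + 2 * q) * (L + D1) + (4 * (Q : ℝ) ^ 2 * D + 4 * q * L) + 4 := by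
        rw [hA, ← e4, ← e1]; linarith
      have h4 : (1 + 2 * q) * (L + D1) ≤ (1 + 3 * q) * L + 2 * D := by
        rw [hD1, e3]
        have h5 : q ^ 3 ≤ q / 100 := by nlinarith
        have h6 : (1 + 2 * q) * q ^ 3 ≤ q := by nlinarith
        have h7 : (1 + 2 * q) * q ^ 3 * L ≤ q * L := mul_le_mul_of_nonneg_right h6 hL
        nlinarith
      have h5 : 2 * D + 4 * (Q : ℝ) ^ 2 * D + 4 ≤ Bc := by
        rw [hB]; nlinarith
      have h6 : Bc ≤ (1 + 7 * q) * Bc := by nlinarith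
      rw [e2]
      nlinarith
    have hA0 : 0 ≤ A := by
      rw [hA]
      have : (0 : ℝ) < (m : ℝ) - 1 := by linarith
      positivity
    have hLB : 0 ≤ L + Bc := by linarith
    have hh0 : 0 ≤ (h : ℝ) / (4 * (Q : ℝ) ^ 2) := by positivity
    have hLBV : L + Bc ≤ V := by linarith
    have hη : A / N ≤ 1 / Q := by
      rw [div_le_div_iff₀ hN0 hQ0]
      have h1 : A ≤ 2 * V := by
        have h2 : (1 + 7 / (Q : ℝ)) ≤ 2 := by
          have : (7 : ℝ) / Q ≤ 1 := by rw [div_le_one hQ0]; linarith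
          linarith
        have h3 : (1 + 7 / (Q : ℝ)) * (L + Bc) ≤ 2 * (L + Bc) :=
          mul_le_mul_of_nonneg_right h2 hLB
        linarith
      have h2 : 2 * V * Q = k / (4 * Q) := by
        rw [hV]; field_simp; norm_num
      have h3 : (k : ℝ) / (4 * Q) ≤ N := by
        rw [div_le_iff₀ (by positivity)]
        nlinarith
      nlinarith
    set η : ℝ := A / N with hηdef
    have hη0 : 0 ≤ η := by positivity
    have hη2 : η ≤ 1 / 2 := by linarith
    -- the new state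
    have hcard2 : Fintype.card {s // s ∉ ({t} : Finset ι)} = N - 1 := by
      rw [card_compl, hcard, Finset.card_singleton]
    have hF2 : Real.exp (-(L + (η + η ^ 2))) ≤ FF m (restr B {t} (fun _ => b) (fun _ => b)) := by
      refine le_trans ?_ hstep
      have h1 := exp_loss hη0 hη2
      have h2 : Real.exp (-(L + (η + η ^ 2))) = Real.exp (-L) * Real.exp (-(η + η ^ 2)) := by
        rw [← Real.exp_add]; congr 1; ring
      rw [h2]
      exact mul_le_mul hF h1 (Real.exp_pos _).le (EE_le_FF_nonneg m B)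
    have hnew := ih (N - 1) (by omega) {s // s ∉ ({t} : Finset ι)} _ h (L + (η + η ^ 2)) hcard2
      (by omega) (near_restr_same hnear {t} (fun _ => b)) (VCle_restr hvc {t} _ _) (by positivity)
      hF2
    have h0i : 1 ≤ k / 2 := by omega
    have hps := Psi_step V p (k / 2) N hV0 hp1 h0i hsmall
    -- compare
    set Φ : ℝ := L + Bc + h / (4 * (Q : ℝ) ^ 2) with hΦ
    have h1 : η + η ^ 2 ≤ Φ * (p / N) := by
      have h2 : η + η ^ 2 ≤ η * (1 + 1 / Q) := by nlinarith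
      have h3 : η ≤ (1 + 7 / Q) * (L + Bc) / N := div_le_div_of_nonneg_right hA1 hN0.le
      have h4 : (1 + 7 / (Q : ℝ)) * (1 + 1 / Q) ≤ p := by
        rw [hp]
        have h5 : (1 + 7 / (Q : ℝ)) * (1 + 1 / Q) = 1 + 8 / Q + 7 / (Q * Q) := by
          field_simp; ring
        have h6 : 7 / ((Q : ℝ) * Q) ≤ 1 / Q := by
          rw [div_le_div_iff₀ (by positivity) hQ0]; nlinarith
        have h7 : (9 : ℝ) / Q = 8 / Q + 1 / Q := by ring
        rw [h5, h7]; linarith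
      have h5 : 0 ≤ (1 + 1 / (Q : ℝ)) := by positivity
      calc η + η ^ 2 ≤ η * (1 + 1 / Q) := h2
        _ ≤ ((1 + 7 / Q) * (L + Bc) / N) * (1 + 1 / Q) := mul_le_mul_of_nonneg_right h3 h5
        _ = ((1 + 7 / Q) * (1 + 1 / Q)) * ((L + Bc) / N) := by ring
        _ ≤ p * ((L + Bc) / N) := mul_le_mul_of_nonneg_right h4 (by positivity)
        _ ≤ p * (Φ / N) := by
            refine mul_le_mul_of_nonneg_left (div_le_div_of_nonneg_right ?_ hN0.le) (by linarith)
            rw [hΦ]; linarith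
        _ = Φ * (p / N) := by ring
    have h2 : Φ * (1 + p / N) ≤ Psi V p (k / 2) N * (1 + p / N) :=
      mul_le_mul_of_nonneg_right hcon (by positivity)
    have h3 : L + (η + η ^ 2) + Bc + h / (4 * (Q : ℝ) ^ 2) ≤ Φ * (1 + p / N) := by
      rw [hΦ] at h1 ⊢
      linarith
    linarith
  · -- the gain
    have hcard2 : Fintype.card {s // s ∉ R} = N - r := by
      rw [card_compl, hcard, hRc]
    have hRN : r ≤ N := by
      rw [← hRc, ← hcard]; exact Finset.card_le_univ R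
    have e1 : (r : ℝ) * (1 / (Q : ℝ)) ^ 2 / 4 = r / (4 * (Q : ℝ) ^ 2) := by field_simp
    rw [e1] at hstep
    have hF2 : Real.exp (-(L - r / (4 * (Q : ℝ) ^ 2))) ≤ FF m (restr B R u u') := by
      refine le_trans ?_ hstep
      have h2 : Real.exp (-(L - r / (4 * (Q : ℝ) ^ 2))) =
          Real.exp (-L) * Real.exp (r / (4 * (Q : ℝ) ^ 2)) := by
        rw [← Real.exp_add]; congr 1; ring
      rw [h2]
      exact mul_le_mul_of_nonneg_right hF (Real.exp_pos _).le
    have hL2 : 0 ≤ L - r / (4 * (Q : ℝ) ^ 2) := by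
      have h1 := hF2.trans (FF_le_one m _)
      have := Real.exp_le_one_iff.1 h1
      linarith
    have hnew := ih (N - r) (by omega) {s // s ∉ R} _ (h + r) (L - r / (4 * (Q : ℝ) ^ 2)) hcard2
      (by omega) (by rw [← hRc]; exact near_restr hnear R u u') (VCle_restr hvc R u u') hL2 hF2
    have hanti := Psi_anti V p (k / 2) (N - r) N hV0 (by linarith) (by omega)
    have e2 : L - r / (4 * (Q : ℝ) ^ 2) + Bc + ((h + r : ℕ) : ℝ) / (4 * (Q : ℝ) ^ 2) =
        L + Bc + h / (4 * (Q : ℝ) ^ 2) := by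
      push_cast
      field_simp
      ring
    rw [e2] at hnew
    linarith

end GHDSharp
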