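import Mathlib
import Pool.Agent.Lib.GHDSharp.Chain

/-!
# The top level: completions of Gap Hamming Distance
-/

open Finset

namespace GHDSharp

open GHDRace

/-- complement of a point -/
def cp {n : ℕ} (x : Fin n → Bool) : Fin n → Bool := fun i => !x i

lemma cp_cp {n : ℕ} (x : Fin n → Bool) : cp (cp x) = x := by funext i; simp [cp]

lemma dist_cp {n : ℕ} (x y : Fin n → Bool) : hammingDist x (cp y) + hammingDist x y = n := by
  unfold hammingDist cp
  have h := Finset.card_filter_add_card_filter_not (s := (univ : Finset (Fin n)))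
    (fun i => x i ≠ y i)
  rw [Finset.card_univ, Fintype.card_fin] at h
  have h2 : (univ.filter fun i => x i ≠ !y i) = univ.filter fun i => ¬ x i ≠ y i := by
    ext i
    simp only [mem_filter, mem_univ, true_and]
    cases x i <;> cases y i <;> simp
  rw [h2]
  omega

/-- the bound for one VC dimension, real parameters -/
lemma top_state (n k d m : ℕ) (A : (Fin n → Bool) → (Fin n → Bool) → Bool)
    (hnear : ∀ x y : Fin n → Bool, hammingDist x y ≤ k → A x y = true)
    (hfar : ∀ x y : Fin n → Bool, n - k ≤ hammingDist x y → A x y = false)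
    (hvc : VCle d A) :
    ∃ B : (Fin n → Bool) → (Fin n → Bool) → Bool, Near k 0 B ∧ VCle d B ∧
      Real.exp (-(m * Real.log 2)) ≤ FF m B := by
  have key : ∀ B : (Fin n → Bool) → (Fin n → Bool) → Bool, 1 / 2 ≤ EE (g B) →
      Real.exp (-(m * Real.log 2)) ≤ FF m B := by
    intro B hB
    have h1 := EE_pow_le (g B) (g_nonneg B) m
    have h2 : Real.exp (-(m * Real.log 2)) = (1 / 2) ^ m := by
      rw [← mul_neg, Real.exp_nat_mul, Real.exp_neg, Real.exp_log (by norm_num), one_div]
    rw [h2]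
    exact (pow_le_pow_left₀ (by norm_num) hB m).trans h1
  by_cases hA : 1 / 2 ≤ EE (g A)
  · exact ⟨A, fun x y h => hnear x y (by omega), hvc, key A hA⟩
  · push Not at hA
    let B : (Fin n → Bool) → (Fin n → Bool) → Bool := fun x y => !A x (cp y)
    refine ⟨B, ?_, ?_, key B ?_⟩
    · intro x y h
      have h1 := dist_cp x y
      have h2 := hfar x (cp y) (by omega)
      simp only [B, h2, Bool.not_false]
    · intro S hS
      have hinj : Function.Injective (cp (n := n)) := fun a b h => by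
        have := congrArg cp h; rwa [cp_cp, cp_cp] at this
      rw [← Finset.card_image_of_injective S hinj]
      refine hvc _ fun T hT => ?_
      obtain ⟨x, hx⟩ := hS (S.filter fun y => cp y ∉ T) (Finset.filter_subset _ _)
      refine ⟨x, fun y hy => ?_⟩
      obtain ⟨y', hy', rfl⟩ := Finset.mem_image.1 hy
      have h1 := hx y' hy'
      simp only [B, mem_filter, hy', true_and, Bool.not_eq_true'] at h1
      cases h2 : A x (cp y')
      · simp only [h2, true_iff] at h1
        simp [h1]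
      · simp only [h2, Bool.true_eq_false, false_iff, not_not] at h1
        simp [h1]
    · have h1 : ∀ x, g B x = 1 - g A x := by
        intro x
        unfold g
        have h2 : EE (fun y => if A x (cp y) then (1 : ℝ) else 0) =
            EE (fun y => if A x y then (1 : ℝ) else 0) := by
          unfold EE
          congr 1
          exact Finset.sum_bij' (fun y _ => cp y) (fun y _ => cp y) (by simp) (by simp)
            (by intro y _; exact cp_cp y) (by intro y _; exact cp_cp y) (by intro y _; rfl)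
        have h3 : (fun y => if B x y then (0 : ℝ) else 1) =
            fun y => if A x (cp y) then (1 : ℝ) else 0 := by
          funext y
          simp only [B]
          by_cases hb : A x (cp y) = true <;> simp [hb]
        rw [h3, h2]
        have h4 : EE (fun y => if A x y then (1 : ℝ) else 0) +
            EE (fun y => if A x y then (0 : ℝ) else 1) = 1 := by
          rw [← EE_add, ← EE_const (ι := Fin n) 1]
          congr 1
          funext y
          rw [EE_const]
          split_ifs <;> norm_num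
        linarith
      have h2 : EE (g B) = 1 - EE (g A) := by
        have h3 : g B = fun x => 1 - g A x := funext h1
        rw [h3, EE_sub, EE_const]
      rw [h2]; linarith

/-- **Main inequality.** -/
theorem main_ineq (n k d : ℕ) (hd : 1 ≤ d) (hk : 2 ≤ k) (hkn : 2 * k < n) (hdn : d ≤ n)
    (A : (Fin n → Bool) → (Fin n → Bool) → Bool)
    (hnear : ∀ x y : Fin n → Bool, hammingDist x y ≤ k → A x y = true)
    (hfar : ∀ x y : Fin n → Bool, n - k ≤ hammingDist x y → A x y = false)
    (hvc : VCle d A) :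
    (k : ℝ) ^ 2 ≤ 10 ^ 12 * d * n * Real.log n * (1 + Real.log (n / k)) ^ 4 := by
  have hk' : (2 : ℝ) ≤ k := by exact_mod_cast hk
  have hn5 : (5 : ℝ) ≤ n := by exact_mod_cast (by omega : 5 ≤ n)
  have hd' : (1 : ℝ) ≤ d := by exact_mod_cast hd
  have hdn' : (d : ℝ) ≤ n := by exact_mod_cast hdn
  have hk0 : (0 : ℝ) < k := by linarith
  have hn0 : (0 : ℝ) < n := by linarith
  have hnk : (2 : ℝ) < n / k := by
    rw [lt_div_iff₀ hk0]; exact_mod_cast hkn
  set l : ℝ := Real.log (n / k) with hl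
  have hl0 : 0 < l := Real.log_pos (by linarith)
  have hln : 1 ≤ Real.log n := by
    rw [← Real.log_exp 1]
    apply Real.log_le_log (Real.exp_pos 1)
    have := Real.exp_one_lt_d9
    linarith
  have hll : l ≤ Real.log n := by
    apply Real.log_le_log (by positivity)
    rw [div_le_iff₀ hk0]
    nlinarith
  -- Q
  set Q : ℕ := ⌈Real.log (3 * (n / k))⌉₊ + 10 with hQdef
  have hlog3 : Real.log (3 * (n / k)) = Real.log 3 + l := by
    rw [Real.log_mul (by norm_num) (by positivity)]
  have hl3a : Real.log 3 ≤ 2 := by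
    have h1 := Real.log_le_sub_one_of_pos (by norm_num : (0 : ℝ) < 3)
    linarith
  have hl3b : 0 ≤ Real.log 3 := Real.log_nonneg (by norm_num)
  have hQ1 : Real.log (3 * (n / k)) ≤ Q := by
    have := Nat.le_ceil (Real.log (3 * (n / k)))
    rw [hQdef]; push_cast; linarith
  have hQ2 : (Q : ℝ) ≤ 13 * (1 + l) := by
    have := Nat.ceil_lt_add_one (a := Real.log (3 * (n / k))) (by rw [hlog3]; positivity)
    rw [hQdef]; push_cast
    rw [hlog3] at this ⊢
    linarith
  have hQ10 : 10 ≤ Q := by omega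
  have hQ10' : (10 : ℝ) ≤ Q := by exact_mod_cast hQ10
  set m : ℕ := Q ^ 3 * d with hm
  have hm' : (m : ℝ) = (Q : ℝ) ^ 3 * d := by rw [hm]; push_cast; ring
  obtain ⟨B, hB1, hB2, hB3⟩ := top_state n k d m A hnear hfar hvc
  obtain ⟨D, hD⟩ : ∃ D : ℝ, D = Real.log n + d * Real.log (14 * m * (n : ℝ) ^ 3) := ⟨_, rfl⟩
  have hlog2 : 0 ≤ Real.log 2 := Real.log_nonneg (by norm_num)
  have hch := chain n k d Q m hQ10 hd hk (by omega) hm D (5 * (Q : ℝ) ^ 2 * D + 4) hD rfl n
    (Fin n) B 0 (m * Real.log 2) (Fintype.card_fin n) le_rfl hB1 hB2 (by positivity) hB3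
  -- lower bound for Psi
  have hi0 : (k : ℝ) / 3 ≤ ((k / 2 : ℕ) : ℝ) := by
    have h1 : k ≤ 3 * (k / 2) := by omega
    have h2 : (k : ℝ) ≤ 3 * ((k / 2 : ℕ) : ℝ) := by exact_mod_cast h1
    linarith
  have hPsi : (k : ℝ) ^ 2 / (24 * (Q : ℝ) ^ 2 * n) * Real.exp (-9) ≤
      Psi ((k : ℝ) / (8 * (Q : ℝ) ^ 2)) (1 + 9 / Q) (k / 2) n := by
    unfold Psi
    rw [if_neg (by omega)]
    have h1 : (k : ℝ) / (3 * n) ≤ ((k / 2 : ℕ) : ℝ) / n := by
      rw [div_le_div_iff₀ (by positivity) hn0]
      nlinarith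
    have hp0 : (0 : ℝ) ≤ 1 + 9 / Q := by positivity
    have h2 := Real.rpow_le_rpow (by positivity) h1 hp0
    have h3 : ((k : ℝ) / (3 * n)) ^ (1 + 9 / (Q : ℝ)) =
        (k : ℝ) / (3 * n) * ((k : ℝ) / (3 * n)) ^ (9 / (Q : ℝ)) := by
      rw [Real.rpow_add (by positivity), Real.rpow_one]
    have h4 : Real.exp (-9) ≤ ((k : ℝ) / (3 * n)) ^ (9 / (Q : ℝ)) := by
      rw [Real.rpow_def_of_pos (by positivity)]
      apply Real.exp_le_exp.2
      have h5 : Real.log ((k : ℝ) / (3 * n)) = - Real.log (3 * (n / k)) := by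
        rw [← Real.log_inv]
        congr 1
        field_simp
      rw [h5]
      have h6 : Real.log (3 * ((n : ℝ) / k)) * (9 / Q) ≤ Q * (9 / Q) :=
        mul_le_mul_of_nonneg_right hQ1 (by positivity)
      have h7 : (Q : ℝ) * (9 / Q) = 9 := by field_simp
      linarith
    rw [h3] at h2
    calc (k : ℝ) ^ 2 / (24 * (Q : ℝ) ^ 2 * n) * Real.exp (-9)
        = (k : ℝ) / (8 * (Q : ℝ) ^ 2) * ((k : ℝ) / (3 * n) * Real.exp (-9)) := by
          field_simp; norm_num
      _ ≤ (k : ℝ) / (8 * (Q : ℝ) ^ 2) * ((k : ℝ) / (3 * n) *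
            ((k : ℝ) / (3 * n)) ^ (9 / (Q : ℝ))) := by
          refine mul_le_mul_of_nonneg_left ?_ (by positivity)
          exact mul_le_mul_of_nonneg_left h4 (by positivity)
      _ ≤ _ := mul_le_mul_of_nonneg_left h2 (by positivity)
  -- upper bound
  have hDle : D ≤ 20 * d * Real.log n := by
    have h1 : Real.log (14 * m * (n : ℝ) ^ 3) ≤ 19 * Real.log n := by
      have hQn : (Q : ℝ) ≤ 13 * n := by
        have : 1 + Real.log n ≤ n := by
          have := Real.log_le_sub_one_of_pos hn0; linarith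
        nlinarith
      have h2 : 14 * (m : ℝ) * (n : ℝ) ^ 3 ≤ (n : ℝ) ^ 19 := by
        rw [hm']
        have h3 : (Q : ℝ) ^ 3 ≤ (13 * n) ^ 3 := pow_le_pow_left₀ (by positivity) hQn 3
        calc 14 * ((Q : ℝ) ^ 3 * d) * (n : ℝ) ^ 3 ≤ 14 * ((13 * n) ^ 3 * n) * (n : ℝ) ^ 3 := by
              gcongr
          _ = 30758 * (n : ℝ) ^ 7 := by ring
          _ ≤ (n : ℝ) ^ 12 * (n : ℝ) ^ 7 := by
              refine mul_le_mul_of_nonneg_right ?_ (by positivity)
              calc (30758 : ℝ) ≤ 5 ^ 12 := by norm_num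
                _ ≤ _ := pow_le_pow_left₀ (by norm_num) hn5 12
          _ = _ := by ring
      have h3 := Real.log_le_log (by positivity) h2
      rw [Real.log_pow] at h3
      exact_mod_cast h3
    rw [hD]
    have h4 := mul_le_mul_of_nonneg_left h1 (by linarith : (0 : ℝ) ≤ d)
    nlinarith
  have hup : (m : ℝ) * Real.log 2 + (5 * (Q : ℝ) ^ 2 * D + 4) ≤
      150 * (Q : ℝ) ^ 2 * d * Real.log n := by
    have hl2 : Real.log 2 ≤ 1 := by have := Real.log_two_lt_d9; linarith
    have hQQ : (100 : ℝ) ≤ (Q : ℝ) ^ 2 := by nlinarith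
    have hX : (100 : ℝ) ≤ (Q : ℝ) ^ 2 * d * Real.log n := by
      have h1 : (100 : ℝ) ≤ (Q : ℝ) ^ 2 * d := by nlinarith
      nlinarith
    have h1 : (m : ℝ) * Real.log 2 ≤ 26 * ((Q : ℝ) ^ 2 * d * Real.log n) := by
      have h2 : (m : ℝ) * Real.log 2 ≤ m := by
        have : (0 : ℝ) ≤ m := by positivity
        nlinarith
      have h3 : (Q : ℝ) ≤ 26 * Real.log n := by linarith
      have h4 : (m : ℝ) = ((Q : ℝ) ^ 2 * d) * Q := by rw [hm']; ring
      have h5 : (m : ℝ) ≤ ((Q : ℝ) ^ 2 * d) * (26 * Real.log n) := by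
        rw [h4]; exact mul_le_mul_of_nonneg_left h3 (by positivity)
      calc _ ≤ _ := h2
        _ ≤ _ := h5
        _ = _ := by ring
    have h2 : 5 * (Q : ℝ) ^ 2 * D ≤ 100 * ((Q : ℝ) ^ 2 * d * Real.log n) := by
      have := mul_le_mul_of_nonneg_left hDle (by positivity : (0 : ℝ) ≤ 5 * (Q : ℝ) ^ 2)
      calc _ ≤ _ := this
        _ = _ := by ring
    have h3 : 150 * (Q : ℝ) ^ 2 * d * Real.log n = 150 * ((Q : ℝ) ^ 2 * d * Real.log n) := by ring
    rw [h3]
    linarith
  have hfin : (k : ℝ) ^ 2 / (24 * (Q : ℝ) ^ 2 * n) * Real.exp (-9) ≤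
      150 * (Q : ℝ) ^ 2 * d * Real.log n := by
    have h1 : ((0 : ℕ) : ℝ) / (4 * (Q : ℝ) ^ 2) = 0 := by simp
    rw [h1, add_zero] at hch
    linarith
  -- conclude
  have hexp : Real.exp 9 ≤ 8200 := by
    have h1 : Real.exp 9 = Real.exp 1 ^ 9 := by rw [← Real.exp_nat_mul]; norm_num
    rw [h1]
    calc Real.exp 1 ^ 9 ≤ 2.7182818286 ^ 9 :=
          pow_le_pow_left₀ (Real.exp_pos 1).le Real.exp_one_lt_d9.le 9
      _ ≤ 8200 := by norm_num
  have h1 : (k : ℝ) ^ 2 ≤ 150 * (Q : ℝ) ^ 2 * d * Real.log n * (24 * (Q : ℝ) ^ 2 * n) *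
      Real.exp 9 := by
    rw [Real.exp_neg, ← div_eq_mul_inv, div_div, div_le_iff₀ (by positivity)] at hfin
    calc _ ≤ _ := hfin
      _ = _ := by ring
  have hQ4 : (Q : ℝ) ^ 4 ≤ (13 * (1 + l)) ^ 4 := pow_le_pow_left₀ (by positivity) hQ2 4
  have h2 : 150 * (Q : ℝ) ^ 2 * d * Real.log n * (24 * (Q : ℝ) ^ 2 * n) * Real.exp 9 =
      (3600 * (d * n * Real.log n)) * ((Q : ℝ) ^ 4 * Real.exp 9) := by ring
  have h3 : (Q : ℝ) ^ 4 * Real.exp 9 ≤ (13 * (1 + l)) ^ 4 * 8200 :=
    mul_le_mul hQ4 hexp (Real.exp_pos 9).le (by positivity)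
  have h4 : (0 : ℝ) ≤ 3600 * (d * n * Real.log n) := by positivity
  calc (k : ℝ) ^ 2 ≤ (3600 * (d * n * Real.log n)) * ((Q : ℝ) ^ 4 * Real.exp 9) := by
        rw [← h2]; exact h1
    _ ≤ (3600 * (d * n * Real.log n)) * ((13 * (1 + l)) ^ 4 * 8200) :=
        mul_le_mul_of_nonneg_left h3 h4
    _ = (3600 * 13 ^ 4 * 8200) * (d * n * Real.log n * (1 + l) ^ 4) := by ring
    _ ≤ 10 ^ 12 * (d * n * Real.log n * (1 + l) ^ 4) := by
        refine mul_le_mul_of_nonneg_right (by norm_num) (by positivity)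
    _ = _ := by ring

/-- **Final form.** -/
theorem main (n k : ℕ) (hkn : 2 * k < n) (A : (Fin n → Bool) → (Fin n → Bool) → Bool)
    (hnear : ∀ x y : Fin n → Bool, hammingDist x y ≤ k → A x y = true)
    (hfar : ∀ x y : Fin n → Bool, n - k ≤ hammingDist x y → A x y = false) :
    ∃ S : Finset (Fin n → Bool),
      (∀ T ⊆ S, ∃ x : Fin n → Bool, ∀ y ∈ S, (A x y = true ↔ y ∈ T)) ∧
      (k : ℝ) ^ 2 ≤ 10 ^ 12 * S.card * n * Real.log n * (1 + Real.log (n / k)) ^ 4 := by
  classical
  obtain ⟨S, hS, hmax⟩ := Finset.exists_max_image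
    (univ.filter fun S : Finset (Fin n → Bool) => Shat A S) Finset.card
    ⟨∅, by
      simp only [mem_filter, mem_univ, true_and]
      intro T _
      exact ⟨fun _ => true, fun y hy => absurd hy (Finset.notMem_empty y)⟩⟩
  have hSS : Shat A S := (Finset.mem_filter.1 hS).2
  have hvc : VCle S.card A := fun T hT => hmax T (by simp [hT])
  refine ⟨S, hSS, ?_⟩
  have hS1 : 1 ≤ S.card := by
    have h1 : Shat A {fun _ => true} := by
      intro T hT
      by_cases hy : (fun _ => true : Fin n → Bool) ∈ T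
      · refine ⟨fun _ => true, fun y hy' => ?_⟩
        rw [Finset.mem_singleton.1 hy', hnear _ _ (by simp)]
        simp [hy]
      · refine ⟨fun _ => false, fun y hy' => ?_⟩
        rw [Finset.mem_singleton.1 hy', hfar _ _ (by
          have : hammingDist (fun _ => false : Fin n → Bool) (fun _ => true) = n := by
            unfold hammingDist; simp
          omega)]
        simp [hy]
    have := hvc _ h1
    simpa using this
  rcases Nat.lt_or_ge k 2 with hk | hk
  · -- small k
    have hk1 : (k : ℝ) ^ 2 ≤ 1 := by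
      have : (k : ℝ) ≤ 1 := by exact_mod_cast (by omega : k ≤ 1)
      have : (0 : ℝ) ≤ k := by positivity
      nlinarith
    rcases Nat.eq_zero_or_pos k with h0 | h0
    · subst h0
      have h2 : 0 ≤ Real.log n := Real.log_natCast_nonneg n
      have h3 : (((0 : ℕ) : ℝ)) ^ 2 = 0 := by simp
      rw [h3]
      exact mul_nonneg (mul_nonneg (by positivity) h2) (by positivity)
    · have hk1' : k = 1 := by omega
      subst hk1'
      have hn3 : (3 : ℝ) ≤ n := by exact_mod_cast (by omega : 3 ≤ n)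
      have hln : 1 ≤ Real.log n := by
        rw [← Real.log_exp 1]
        apply Real.log_le_log (Real.exp_pos 1)
        have := Real.exp_one_lt_d9
        linarith
      have hS1' : (1 : ℝ) ≤ S.card := by exact_mod_cast hS1
      have e1 : (n : ℝ) / ((1 : ℕ) : ℝ) = n := by simp
      rw [e1]
      have e2 : (1 : ℝ) ≤ (1 + Real.log n) ^ 4 := one_le_pow₀ (by linarith)
      have e3 : (1 : ℝ) ≤ 10 ^ 12 * S.card * n * Real.log n := by
        have e4 : (1 : ℝ) ≤ 10 ^ 12 * S.card := by nlinarith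
        have e5 : (1 : ℝ) ≤ 10 ^ 12 * S.card * n := by nlinarith
        nlinarith
      have e4 : (1 : ℝ) ≤ 10 ^ 12 * S.card * n * Real.log n * (1 + Real.log n) ^ 4 := by
        nlinarith
      exact hk1.trans e4
  · rcases Nat.lt_or_ge n S.card with hc | hc
    · -- trivial
      have hk' : (2 : ℝ) ≤ k := by exact_mod_cast hk
      have hn5 : (5 : ℝ) ≤ n := by exact_mod_cast (by omega : 5 ≤ n)
      have hkn' : (k : ℝ) ≤ n := by exact_mod_cast (by omega : k ≤ n)
      have hc' : (n : ℝ) ≤ S.card := by exact_mod_cast hc.le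
      have hln : 1 ≤ Real.log n := by
        rw [← Real.log_exp 1]
        apply Real.log_le_log (Real.exp_pos 1)
        have := Real.exp_one_lt_d9
        linarith
      have hl0 : 0 ≤ Real.log (n / k) := Real.log_nonneg (by
        rw [le_div_iff₀ (by linarith)]; linarith)
      have e2 : (1 : ℝ) ≤ (1 + Real.log (n / k)) ^ 4 := one_le_pow₀ (by linarith)
      have e3 : (k : ℝ) ^ 2 ≤ S.card * n := by nlinarith
      have e4 : (0 : ℝ) ≤ S.card * n := by positivity
      calc (k : ℝ) ^ 2 ≤ S.card * n := e3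
        _ = (S.card * n) * 1 * 1 := by ring
        _ ≤ (S.card * n) * Real.log n * (1 + Real.log (n / k)) ^ 4 := by gcongr
        _ ≤ 10 ^ 12 * ((S.card * n) * Real.log n * (1 + Real.log (n / k)) ^ 4) := by
            have : 0 ≤ (S.card * n) * Real.log n * (1 + Real.log (n / k)) ^ 4 := by positivity
            linarith
        _ = _ := by ring
    · exact main_ineq n k S.card hS1 hk hkn hc A hnear hfar hvc

end GHDSharp
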